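import Pool.Agent.U691.HA.Lie
import Pool.Agent.U691.CE3.HW3

/-!
# The Lie algebra `ABG(A)` of an associative algebra and the action of `sl₃`
-/

set_option autoImplicit false
set_option linter.unusedSectionVars false
set_option linter.unusedSimpArgs false

namespace Pool.Agent.U691.HA

open Pool.Agent.U691.CE Pool.Agent.U691.CE3

variable {F : Type} [Field F] {A : Type} [NonUnitalRing A] [Module F A]

/-- the product of a matrix over `F` and a matrix over `A` -/
def lm (X : Matrix (Fin 3) (Fin 3) F) (M : Matrix (Fin 3) (Fin 3) A) : Matrix (Fin 3) (Fin 3) A :=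
  fun i j => ∑ k, X i k • M k j

/-- the product of a matrix over `A` and a matrix over `F` -/
def rm (M : Matrix (Fin 3) (Fin 3) A) (X : Matrix (Fin 3) (Fin 3) F) : Matrix (Fin 3) (Fin 3) A :=
  fun i j => ∑ k, X k j • M i k

section

variable (X Y : Matrix (Fin 3) (Fin 3) F) (M N : Matrix (Fin 3) (Fin 3) A)

theorem lm_add : lm X (M + N) = lm X M + lm X N := by
  ext i j
  simp only [lm, Matrix.add_apply, smul_add, Finset.sum_add_distrib]

theorem rm_add : rm (M + N) X = rm M X + rm N X := by
  ext i j
  simp only [rm, Matrix.add_apply, smul_add, Finset.sum_add_distrib]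

theorem lm_smul (c : F) : lm X (c • M) = c • lm X M := by
  ext i j
  simp only [lm, Matrix.smul_apply, Finset.smul_sum, smul_comm c]

theorem rm_smul (c : F) : rm (c • M) X = c • rm M X := by
  ext i j
  simp only [rm, Matrix.smul_apply, Finset.smul_sum, smul_comm c]

theorem lm_lm : lm X (lm Y M) = lm (X * Y) M := by
  ext i j
  simp only [lm, Matrix.mul_apply, Fin.sum_univ_three]
  module

theorem rm_rm : rm (rm M X) Y = rm M (X * Y) := by
  ext i j
  simp only [rm, Matrix.mul_apply, Fin.sum_univ_three]
  module

theorem lm_rm : lm X (rm M Y) = rm (lm X M) Y := by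
  ext i j
  simp only [lm, rm, Fin.sum_univ_three]
  module

theorem lm_sub_left : lm (X - Y) M = lm X M - lm Y M := by
  ext i j
  simp only [lm, Matrix.sub_apply, sub_smul, Finset.sum_sub_distrib]

theorem rm_sub_right : rm M (X - Y) = rm M X - rm M Y := by
  ext i j
  simp only [rm, Matrix.sub_apply, sub_smul, Finset.sum_sub_distrib]

theorem lm_sub : lm X (M - N) = lm X M - lm X N := by
  ext i j
  simp only [lm, Matrix.sub_apply, smul_sub, Finset.sum_sub_distrib]

theorem rm_sub : rm (M - N) X = rm M X - rm N X := by
  ext i j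
  simp only [rm, Matrix.sub_apply, smul_sub, Finset.sum_sub_distrib]

theorem om_lm : om F (lm X M) N = om F M (rm N X) := by
  simp only [om, lm, rm, Fin.sum_univ_three, wdg_add_left, wdg_add_right, wdg_smul_left,
    wdg_smul_right]
  abel

theorem om_rm : om F (rm M X) N = om F M (lm X N) := by
  simp only [om, lm, rm, Fin.sum_univ_three, wdg_add_left, wdg_add_right, wdg_smul_left,
    wdg_smul_right]
  abel

theorem trace_lm : (lm X M).trace = (rm M X).trace := by
  simp only [Matrix.trace, Matrix.diag, lm, rm, Fin.sum_univ_three]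
  abel

variable [IsScalarTower F A A] [SMulCommClass F A A]

theorem lm_mul : lm X (M * N) = lm X M * N := by
  ext i j
  simp only [lm, Matrix.mul_apply, Fin.sum_univ_three, add_mul, smul_mul_assoc, smul_add]
  abel

theorem rm_mul : rm (M * N) X = M * rm N X := by
  ext i j
  simp only [rm, Matrix.mul_apply, Fin.sum_univ_three, mul_add, mul_smul_comm, smul_add]
  abel

theorem rm_mul_lm : rm M X * N = M * lm X N := by
  ext i j
  simp only [lm, rm, Matrix.mul_apply, Fin.sum_univ_three, mul_add, add_mul, smul_mul_assoc,
    mul_smul_comm]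
  abel

end

variable [IsScalarTower F A A] [SMulCommClass F A A] [CharZero F]

/-- the action of a matrix over `F` on `gl₃(A) ⊕ B(A)` -/
noncomputable def actG (X : Matrix (Fin 3) (Fin 3) F) : GG F A →ₗ[F] GG F A where
  toFun x := GG.mk (lm X (GG.pm x) - rm (GG.pm x) X) 0
  map_add' x y := by
    ext1
    · simp only [GG.pm_mk, GG.pm_add, lm_add, rm_add]
      abel
    · simp only [GG.pb_mk, GG.pb_add, add_zero]
  map_smul' c x := by
    ext1
    · simp only [GG.pm_mk, GG.pm_smul, lm_smul, rm_smul, RingHom.id_apply, smul_sub]
    · simp only [GG.pb_mk, GG.pb_smul, smul_zero, RingHom.id_apply]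

theorem pm_actG (X : Matrix (Fin 3) (Fin 3) F) (x : GG F A) :
    GG.pm (actG X x) = lm X (GG.pm x) - rm (GG.pm x) X := rfl

theorem pb_actG (X : Matrix (Fin 3) (Fin 3) F) (x : GG F A) : GG.pb (actG X x) = 0 := rfl

theorem actG_lie (X : Matrix (Fin 3) (Fin 3) F) (x y : GG F A) :
    actG X ⁅x, y⁆ = ⁅actG X x, y⁆ + ⁅x, actG X y⁆ := by
  ext1
  · simp only [pm_actG, GG.pm_lie, GG.pm_add, lm_sub, rm_sub, lm_mul, rm_mul, mul_sub, sub_mul,
      rm_mul_lm]
    abel
  · simp only [pb_actG, pm_actG, GG.pb_lie, GG.pb_add, om_sub_left, om_sub_right, om_lm, om_rm]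
    module

theorem actG_comm (X Y : Matrix (Fin 3) (Fin 3) F) (x : GG F A) :
    actG X (actG Y x) = actG Y (actG X x) + actG (X * Y - Y * X) x := by
  ext1
  · simp only [pm_actG, GG.pm_add, lm_sub, rm_sub, lm_lm, rm_rm, lm_rm, lm_sub_left, rm_sub_right]
    abel
  · simp only [pb_actG, GG.pb_add, add_zero]

variable (F A) in
/-- The Lie algebra `ABG(A)` of an associative algebra `A` as a subalgebra of
`gl₃(A) ⊕ B(A)`. -/
noncomputable def abg : LieSubalgebra F (GG F A) where
  carrier := {x | (GG.pm x).trace = (3 : F) • kap (GG.pb x)}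
  add_mem' := by
    intro x y hx hy
    simp only [Set.mem_ofPred_eq, GG.pm_add, GG.pb_add, Matrix.trace_add, map_add, smul_add] at *
    rw [hx, hy]
  zero_mem' := by
    simp only [Set.mem_ofPred_eq, GG.pm_zero, GG.pb_zero, Matrix.trace_zero, map_zero, smul_zero]
  smul_mem' := by
    intro c x hx
    simp only [Set.mem_ofPred_eq, GG.pm_smul, GG.pb_smul, Matrix.trace_smul, map_smul] at *
    rw [hx, smul_comm]
  lie_mem' := by
    intro x y _ _
    show (GG.pm ⁅x, y⁆).trace = (3 : F) • kap (GG.pb ⁅x, y⁆)
    rw [GG.pm_lie, GG.pb_lie, map_smul, smul_smul, mul_inv_cancel₀ (by norm_num), one_smul,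
      kap_om]

theorem mem_abg {x : GG F A} : x ∈ abg F A ↔ (GG.pm x).trace = (3 : F) • kap (GG.pb x) := Iff.rfl

variable (F A) in
/-- the Lie algebra `ABG(A)` of an associative algebra `A` -/
abbrev G : Type := abg F A

/-- the action of a matrix over `F` on `ABG(A)` -/
noncomputable def act (X : Matrix (Fin 3) (Fin 3) F) : G F A →ₗ[F] G F A where
  toFun x := ⟨actG X x.1, by
    rw [mem_abg, pm_actG, pb_actG, Matrix.trace_sub, trace_lm, sub_self, map_zero, smul_zero]⟩
  map_add' x y := Subtype.ext (map_add (actG X) x.1 y.1)
  map_smul' c x := Subtype.ext (map_smul (actG X) c x.1)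

theorem act_val (X : Matrix (Fin 3) (Fin 3) F) (x : G F A) : (act X x).1 = actG X x.1 := rfl

theorem isDer_act (X : Matrix (Fin 3) (Fin 3) F) : IsDer (act X : G F A →ₗ[F] G F A) := by
  intro x y
  apply Subtype.ext
  exact actG_lie X x.1 y.1

theorem act_comm (X Y : Matrix (Fin 3) (Fin 3) F) (x : G F A) :
    act X (act Y x) = act Y (act X x) + act (X * Y - Y * X) x := Subtype.ext (actG_comm X Y x.1)

theorem act_add (X Y : Matrix (Fin 3) (Fin 3) F) :
    (act (X + Y) : G F A →ₗ[F] G F A) = act X + act Y := by
  ext x : 1
  apply Subtype.ext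
  show actG (X + Y) x.1 = actG X x.1 + actG Y x.1
  ext1
  · ext i j
    simp only [pm_actG, GG.pm_add, lm, rm, Matrix.add_apply, Matrix.sub_apply, add_smul,
      Finset.sum_add_distrib]
    abel
  · simp only [pb_actG, GG.pb_add, add_zero]

theorem act_smul (c : F) (X : Matrix (Fin 3) (Fin 3) F) :
    (act (c • X) : G F A →ₗ[F] G F A) = c • act X := by
  ext x : 1
  apply Subtype.ext
  show actG (c • X) x.1 = c • actG X x.1
  ext1
  · ext i j
    simp only [pm_actG, GG.pm_smul, lm, rm, Matrix.smul_apply, Matrix.sub_apply, smul_sub,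
      Finset.smul_sum, smul_eq_mul, mul_smul]
  · simp only [pb_actG, GG.pb_smul, smul_zero]

theorem act_neg (X : Matrix (Fin 3) (Fin 3) F) :
    (act (-X) : G F A →ₗ[F] G F A) = - act X := by
  have := act_smul (A := A) (-1 : F) X
  rwa [neg_one_smul, neg_one_smul] at this

theorem act_sub (X Y : Matrix (Fin 3) (Fin 3) F) :
    (act (X - Y) : G F A →ₗ[F] G F A) = act X - act Y := by
  rw [sub_eq_add_neg, act_add, act_neg, sub_eq_add_neg]

theorem act_one : (act (1 : Matrix (Fin 3) (Fin 3) F) : G F A →ₗ[F] G F A) = 0 := by
  ext x : 1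
  apply Subtype.ext
  show actG 1 x.1 = 0
  ext1
  · ext i j
    simp only [pm_actG, lm, rm, Matrix.sub_apply, Matrix.one_apply, ite_smul, one_smul, zero_smul,
      Finset.sum_ite_eq, Finset.sum_ite_eq', Finset.mem_univ, if_true, GG.pm_zero,
      Matrix.zero_apply, sub_self]
  · simp only [pb_actG, GG.pb_zero]

variable (F) in
/-- the matrix unit -/
def E (i j : Fin 3) : Matrix (Fin 3) (Fin 3) F := Matrix.single i j 1

theorem E_mul (i j k l : Fin 3) : E F i j * E F k l = if j = k then E F i l else 0 := by
  unfold E
  split_ifs with h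
  · subst h
    rw [Matrix.single_mul_single_same, mul_one]
  · rw [Matrix.single_mul_single_of_ne]
    exact h

theorem E_one : E F 0 0 + E F 1 1 + E F 2 2 = 1 := by
  unfold E
  ext i j
  fin_cases i <;> fin_cases j <;> simp [Matrix.single, Matrix.one_apply]

theorem act_diag : (act (E F 0 0) + act (E F 1 1) + act (E F 2 2) : G F A →ₗ[F] G F A) = 0 := by
  rw [← act_add, ← act_add, E_one, act_one]

theorem act_diag' (x : G F A) :
    act (E F 2 2) x = - act (E F 0 0) x - act (E F 1 1) x := by
  have h := LinearMap.congr_fun (act_diag (F := F) (A := A)) x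
  simp only [LinearMap.add_apply, LinearMap.zero_apply] at h
  rw [← sub_eq_zero, ← h]
  abel

theorem act_zero : (act (0 : Matrix (Fin 3) (Fin 3) F) : G F A →ₗ[F] G F A) = 0 := by
  have := act_smul (A := A) (0 : F) (0 : Matrix (Fin 3) (Fin 3) F)
  rwa [zero_smul, zero_smul] at this

variable (F A) in
/-- the action of `sl₃` -/
noncomputable def RG : Sl3 F (G F A) where
  e1 := act (E F 0 1)
  e2 := act (E F 1 2)
  e3 := act (E F 0 2)
  f1 := act (E F 1 0)
  f2 := act (E F 2 1)
  f3 := act (E F 2 0)
  A := act (E F 0 0)
  B := act (E F 0 0) + act (E F 1 1)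
  e2e1 v := by
    rw [act_comm]
    simp only [E_mul, act_sub, act_neg, act_zero, LinearMap.sub_apply, LinearMap.add_apply,
      LinearMap.zero_apply, LinearMap.neg_apply, map_add, Fin.reduceEq, if_true, if_false, act_diag']
    module
  e3e1 v := by
    rw [act_comm]
    simp only [E_mul, act_sub, act_neg, act_zero, LinearMap.sub_apply, LinearMap.add_apply,
      LinearMap.zero_apply, LinearMap.neg_apply, map_add, Fin.reduceEq, if_true, if_false, act_diag']
    module
  e3e2 v := by
    rw [act_comm]
    simp only [E_mul, act_sub, act_neg, act_zero, LinearMap.sub_apply, LinearMap.add_apply,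
      LinearMap.zero_apply, LinearMap.neg_apply, map_add, Fin.reduceEq, if_true, if_false, act_diag']
    module
  f1f2 v := by
    rw [act_comm]
    simp only [E_mul, act_sub, act_neg, act_zero, LinearMap.sub_apply, LinearMap.add_apply,
      LinearMap.zero_apply, LinearMap.neg_apply, map_add, Fin.reduceEq, if_true, if_false, act_diag']
    module
  f1f3 v := by
    rw [act_comm]
    simp only [E_mul, act_sub, act_neg, act_zero, LinearMap.sub_apply, LinearMap.add_apply,
      LinearMap.zero_apply, LinearMap.neg_apply, map_add, Fin.reduceEq, if_true, if_false, act_diag']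
    module
  f2f3 v := by
    rw [act_comm]
    simp only [E_mul, act_sub, act_neg, act_zero, LinearMap.sub_apply, LinearMap.add_apply,
      LinearMap.zero_apply, LinearMap.neg_apply, map_add, Fin.reduceEq, if_true, if_false, act_diag']
    module
  e1f1 v := by
    rw [act_comm]
    simp only [E_mul, act_sub, act_neg, act_zero, LinearMap.sub_apply, LinearMap.add_apply,
      LinearMap.zero_apply, LinearMap.neg_apply, map_add, Fin.reduceEq, if_true, if_false, act_diag']
    module
  e1f2 v := by
    rw [act_comm]
    simp only [E_mul, act_sub, act_neg, act_zero, LinearMap.sub_apply, LinearMap.add_apply,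
      LinearMap.zero_apply, LinearMap.neg_apply, map_add, Fin.reduceEq, if_true, if_false, act_diag']
    module
  e1f3 v := by
    rw [act_comm]
    simp only [E_mul, act_sub, act_neg, act_zero, LinearMap.sub_apply, LinearMap.add_apply,
      LinearMap.zero_apply, LinearMap.neg_apply, map_add, Fin.reduceEq, if_true, if_false, act_diag']
    module
  e2f1 v := by
    rw [act_comm]
    simp only [E_mul, act_sub, act_neg, act_zero, LinearMap.sub_apply, LinearMap.add_apply,
      LinearMap.zero_apply, LinearMap.neg_apply, map_add, Fin.reduceEq, if_true, if_false, act_diag']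
    module
  e2f2 v := by
    rw [act_comm]
    simp only [E_mul, act_sub, act_neg, act_zero, LinearMap.sub_apply, LinearMap.add_apply,
      LinearMap.zero_apply, LinearMap.neg_apply, map_add, Fin.reduceEq, if_true, if_false, act_diag']
    module
  e2f3 v := by
    rw [act_comm]
    simp only [E_mul, act_sub, act_neg, act_zero, LinearMap.sub_apply, LinearMap.add_apply,
      LinearMap.zero_apply, LinearMap.neg_apply, map_add, Fin.reduceEq, if_true, if_false, act_diag']
    module
  e3f1 v := by
    rw [act_comm]
    simp only [E_mul, act_sub, act_neg, act_zero, LinearMap.sub_apply, LinearMap.add_apply,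
      LinearMap.zero_apply, LinearMap.neg_apply, map_add, Fin.reduceEq, if_true, if_false, act_diag']
    module
  e3f2 v := by
    rw [act_comm]
    simp only [E_mul, act_sub, act_neg, act_zero, LinearMap.sub_apply, LinearMap.add_apply,
      LinearMap.zero_apply, LinearMap.neg_apply, map_add, Fin.reduceEq, if_true, if_false, act_diag']
    module
  e3f3 v := by
    rw [act_comm]
    simp only [E_mul, act_sub, act_neg, act_zero, LinearMap.sub_apply, LinearMap.add_apply,
      LinearMap.zero_apply, LinearMap.neg_apply, map_add, Fin.reduceEq, if_true, if_false, act_diag']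
    module
  Af1 v := by
    rw [act_comm]
    simp only [E_mul, act_sub, act_neg, act_zero, LinearMap.sub_apply, LinearMap.add_apply,
      LinearMap.zero_apply, LinearMap.neg_apply, map_add, Fin.reduceEq, if_true, if_false, act_diag']
    module
  Af2 v := by
    rw [act_comm]
    simp only [E_mul, act_sub, act_neg, act_zero, LinearMap.sub_apply, LinearMap.add_apply,
      LinearMap.zero_apply, LinearMap.neg_apply, map_add, Fin.reduceEq, if_true, if_false, act_diag']
    module
  Af3 v := by
    rw [act_comm]
    simp only [E_mul, act_sub, act_neg, act_zero, LinearMap.sub_apply, LinearMap.add_apply,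
      LinearMap.zero_apply, LinearMap.neg_apply, map_add, Fin.reduceEq, if_true, if_false, act_diag']
    module
  Bf1 v := by
    rw [LinearMap.add_apply, act_comm, act_comm (E F 1 1)]
    simp only [E_mul, act_sub, act_neg, act_zero, LinearMap.sub_apply, LinearMap.add_apply,
      LinearMap.zero_apply, LinearMap.neg_apply, map_add, Fin.reduceEq, if_true, if_false, act_diag']
    module
  Bf2 v := by
    rw [LinearMap.add_apply, act_comm, act_comm (E F 1 1)]
    simp only [E_mul, act_sub, act_neg, act_zero, LinearMap.sub_apply, LinearMap.add_apply,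
      LinearMap.zero_apply, LinearMap.neg_apply, map_add, Fin.reduceEq, if_true, if_false, act_diag']
    module
  Bf3 v := by
    rw [LinearMap.add_apply, act_comm, act_comm (E F 1 1)]
    simp only [E_mul, act_sub, act_neg, act_zero, LinearMap.sub_apply, LinearMap.add_apply,
      LinearMap.zero_apply, LinearMap.neg_apply, map_add, Fin.reduceEq, if_true, if_false, act_diag']
    module
  e1A v := by
    rw [act_comm]
    simp only [E_mul, act_sub, act_neg, act_zero, LinearMap.sub_apply, LinearMap.add_apply,
      LinearMap.zero_apply, LinearMap.neg_apply, map_add, Fin.reduceEq, if_true, if_false, act_diag']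
    module
  e1B v := by
    rw [LinearMap.add_apply, map_add, act_comm, act_comm _ (E F 1 1)]
    simp only [E_mul, act_sub, act_neg, act_zero, LinearMap.sub_apply, LinearMap.add_apply,
      LinearMap.zero_apply, LinearMap.neg_apply, map_add, Fin.reduceEq, if_true, if_false, act_diag']
    module
  e2A v := by
    rw [act_comm]
    simp only [E_mul, act_sub, act_neg, act_zero, LinearMap.sub_apply, LinearMap.add_apply,
      LinearMap.zero_apply, LinearMap.neg_apply, map_add, Fin.reduceEq, if_true, if_false, act_diag']
    module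
  e2B v := by
    rw [LinearMap.add_apply, map_add, act_comm, act_comm _ (E F 1 1)]
    simp only [E_mul, act_sub, act_neg, act_zero, LinearMap.sub_apply, LinearMap.add_apply,
      LinearMap.zero_apply, LinearMap.neg_apply, map_add, Fin.reduceEq, if_true, if_false, act_diag']
    module
  e3A v := by
    rw [act_comm]
    simp only [E_mul, act_sub, act_neg, act_zero, LinearMap.sub_apply, LinearMap.add_apply,
      LinearMap.zero_apply, LinearMap.neg_apply, map_add, Fin.reduceEq, if_true, if_false, act_diag']
    module
  e3B v := by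
    rw [LinearMap.add_apply, map_add, act_comm, act_comm _ (E F 1 1)]
    simp only [E_mul, act_sub, act_neg, act_zero, LinearMap.sub_apply, LinearMap.add_apply,
      LinearMap.zero_apply, LinearMap.neg_apply, map_add, Fin.reduceEq, if_true, if_false, act_diag']
    module
  BA v := by
    rw [LinearMap.add_apply, LinearMap.add_apply, map_add, act_comm (E F 1 1)]
    simp only [E_mul, act_sub, act_neg, act_zero, LinearMap.sub_apply, LinearMap.add_apply,
      LinearMap.zero_apply, LinearMap.neg_apply, map_add, Fin.reduceEq, if_true, if_false, act_diag']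
    module

end Pool.Agent.U691.HA
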