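import Pool.Agent.U691.Shang.Alg

/-!
# The free alternative algebra as an algebra; for two generators: basis and degree derivation
-/

set_option autoImplicit false
set_option linter.unusedSectionVars false

namespace Pool.Agent.U691.HA

open Pool.Agent.U691.Shang Pool.Agent.Helper120_Alt

section

variable (F : Type) [Field F] (d : ℕ)

theorem altKer_mul {a x : MonoidAlgebra F (FreeMagma (Fin d))} (hx : x ∈ altKer F d) :
    a * x ∈ altKer F d ∧ x * a ∈ altKer F d := by
  unfold altKer at *
  rw [Submodule.mem_sInf] at *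
  rw [Submodule.mem_sInf]
  exact ⟨fun I hI => (hI.2 a x (hx I hI)).1, fun I hI => (hI.2 a x (hx I hI)).2⟩

variable {F d}

/-- the residue class -/
noncomputable def mk (u : MonoidAlgebra F (FreeMagma (Fin d))) : FreeAlt F d := (altKer F d).mkQ u

theorem mk_surj (x : FreeAlt F d) : ∃ u, mk u = x := Submodule.mkQ_surjective _ x

theorem mk_add (u v : MonoidAlgebra F (FreeMagma (Fin d))) : mk (u + v) = mk u + mk v := rfl

theorem mk_smul (c : F) (u : MonoidAlgebra F (FreeMagma (Fin d))) : mk (c • u) = c • mk u := rfl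

noncomputable instance : Mul (FreeAlt F d) :=
  ⟨Quotient.map₂ (· * ·) (by
    intro a a' ha b b' hb
    rw [← Quotient.eq_iff_equiv] at ha hb ⊢
    have ha' : a - a' ∈ altKer F d := (Submodule.Quotient.eq _).1 ha
    have hb' : b - b' ∈ altKer F d := (Submodule.Quotient.eq _).1 hb
    refine (Submodule.Quotient.eq (altKer F d)).2 ?_
    have : a * b - a' * b' = (a - a') * b + a' * (b - b') := by
      rw [sub_mul, mul_sub]; abel
    rw [this]
    exact Submodule.add_mem _ (altKer_mul F d ha').2 (altKer_mul F d hb').1)⟩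

theorem mk_mul (u v : MonoidAlgebra F (FreeMagma (Fin d))) : mk (u * v) = mk u * mk v := rfl

noncomputable instance : NonUnitalNonAssocRing (FreeAlt F d) where
  left_distrib a b c := by
    obtain ⟨a, rfl⟩ := mk_surj a
    obtain ⟨b, rfl⟩ := mk_surj b
    obtain ⟨c, rfl⟩ := mk_surj c
    rw [← mk_add, ← mk_mul, ← mk_mul, ← mk_mul, ← mk_add, mul_add]
  right_distrib a b c := by
    obtain ⟨a, rfl⟩ := mk_surj a
    obtain ⟨b, rfl⟩ := mk_surj b
    obtain ⟨c, rfl⟩ := mk_surj c
    rw [← mk_add, ← mk_mul, ← mk_mul, ← mk_mul, ← mk_add, add_mul]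
  zero_mul a := by
    obtain ⟨a, rfl⟩ := mk_surj a
    have : (0 : FreeAlt F d) = mk 0 := rfl
    rw [this, ← mk_mul, zero_mul]
  mul_zero a := by
    obtain ⟨a, rfl⟩ := mk_surj a
    have : (0 : FreeAlt F d) = mk 0 := rfl
    rw [this, ← mk_mul, mul_zero]

instance : IsScalarTower F (FreeAlt F d) (FreeAlt F d) := ⟨fun c a b => by
  obtain ⟨a, rfl⟩ := mk_surj a
  obtain ⟨b, rfl⟩ := mk_surj b
  rw [smul_eq_mul, smul_eq_mul, ← mk_smul, ← mk_mul, ← mk_mul, ← mk_smul, smul_mul_assoc]⟩

instance : SMulCommClass F (FreeAlt F d) (FreeAlt F d) := ⟨fun c a b => by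
  obtain ⟨a, rfl⟩ := mk_surj a
  obtain ⟨b, rfl⟩ := mk_surj b
  rw [smul_eq_mul, smul_eq_mul, ← mk_smul, ← mk_mul, ← mk_mul, ← mk_smul, mul_smul_comm]⟩

end

variable (F : Type) [Field F]

theorem phi2_mul (a b : FreeAlt F 2) : phi2 F (a * b) = phi2 F a * phi2 F b := by
  obtain ⟨a, rfl⟩ := mk_surj a
  obtain ⟨b, rfl⟩ := mk_surj b
  rw [← mk_mul]
  show phi2 F ((altKer F 2).mkQ _) = phi2 F ((altKer F 2).mkQ _) * phi2 F ((altKer F 2).mkQ _)
  rw [phi2_mk, phi2_mk, phi2_mk, map_mul]

/-- Artin's theorem -/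
theorem fa_assoc (a b c : FreeAlt F 2) : a * b * c = a * (b * c) := by
  apply phi2_injective F
  rw [phi2_mul, phi2_mul, phi2_mul, phi2_mul, mul_assoc]

noncomputable instance : NonUnitalRing (FreeAlt F 2) :=
  { (inferInstance : NonUnitalNonAssocRing (FreeAlt F 2)) with
    mul_assoc := fa_assoc F }

theorem phi2_surjective : Function.Surjective (phi2 F) := by
  intro y
  induction y using MonoidAlgebra.induction_linear with
  | zero => exact ⟨0, map_zero _⟩
  | add a b ha hb =>
    obtain ⟨x, rfl⟩ := ha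
    obtain ⟨y, rfl⟩ := hb
    exact ⟨x + y, map_add _ _ _⟩
  | single w c =>
    refine ⟨mk (MonoidAlgebra.single (ln w) c), ?_⟩
    show phi2 F ((altKer F 2).mkQ _) = _
    rw [phi2_mk, psi_single, flat_ln]

/-- the isomorphism with the free associative algebra -/
noncomputable def ph : FreeAlt F 2 ≃ₗ[F] AS F (Fin 2) :=
  LinearEquiv.ofBijective (phi2 F) ⟨phi2_injective F, phi2_surjective F⟩

theorem ph_mul (a b : FreeAlt F 2) : ph F (a * b) = ph F a * ph F b := phi2_mul F a b

/-- the basis of words -/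
noncomputable def bA : Module.Basis (FreeSemigroup (Fin 2)) F (FreeAlt F 2) :=
  (MonoidAlgebra.basis (FreeSemigroup (Fin 2)) F).map (ph F).symm

theorem ph_bA (w : FreeSemigroup (Fin 2)) : ph F (bA F w) = MonoidAlgebra.single w 1 := by
  unfold bA
  rw [Module.Basis.map_apply, LinearEquiv.apply_symm_apply, MonoidAlgebra.basis_apply]

theorem bA_mul (u v : FreeSemigroup (Fin 2)) : bA F (u * v) = bA F u * bA F v := by
  apply (ph F).injective
  rw [ph_mul, ph_bA, ph_bA, ph_bA, MonoidAlgebra.single_mul_single, one_mul]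

/-- the degree derivation of the free associative algebra -/
noncomputable def Ns : AS F (Fin 2) →ₗ[F] AS F (Fin 2) :=
  (MonoidAlgebra.basis (FreeSemigroup (Fin 2)) F).constr F
    fun m => (m.length : F) • MonoidAlgebra.single m 1

theorem Ns_single (m : FreeSemigroup (Fin 2)) : Ns F (MonoidAlgebra.single m 1) =
    (m.length : F) • MonoidAlgebra.single m 1 := by
  unfold Ns
  conv_lhs => rw [← MonoidAlgebra.basis_apply]
  rw [Module.Basis.constr_basis]

theorem Ns_mul (u v : AS F (Fin 2)) : Ns F (u * v) = Ns F u * v + u * Ns F v := by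
  induction u using MonoidAlgebra.induction_linear with
  | zero => simp
  | add a b ha hb =>
    rw [add_mul, map_add, ha, hb, map_add, add_mul, add_mul]
    abel
  | single m c =>
    induction v using MonoidAlgebra.induction_linear with
    | zero => simp
    | add a b ha hb =>
      rw [mul_add, map_add, ha, hb, map_add, mul_add, mul_add]
      abel
    | single m' c' =>
      have h1 : ∀ (m : FreeSemigroup (Fin 2)) (c : F),
          (MonoidAlgebra.single m c : AS F (Fin 2)) = c • MonoidAlgebra.single m 1 := by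
        intro m c; simp
      rw [h1 m c, h1 m' c', smul_mul_smul_comm, MonoidAlgebra.single_mul_single, one_mul,
        map_smul, map_smul, map_smul, Ns_single, Ns_single, Ns_single,
        FreeSemigroup.length_mul, Nat.cast_add]
      simp only [smul_mul_assoc, mul_smul_comm, MonoidAlgebra.single_mul_single, one_mul,
        smul_smul, ← add_smul]
      congr 1
      ring

/-- the degree derivation -/
noncomputable def NA : FreeAlt F 2 →ₗ[F] FreeAlt F 2 :=
  (ph F).symm.toLinearMap ∘ₗ Ns F ∘ₗ (ph F).toLinearMap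

theorem ph_NA (a : FreeAlt F 2) : ph F (NA F a) = Ns F (ph F a) := by
  unfold NA
  simp

theorem NA_mul (a b : FreeAlt F 2) : NA F (a * b) = NA F a * b + a * NA F b := by
  apply (ph F).injective
  rw [ph_NA, ph_mul, Ns_mul, map_add, ph_mul, ph_mul, ph_NA, ph_NA]

theorem NA_bA (w : FreeSemigroup (Fin 2)) : NA F (bA F w) = (w.length : F) • bA F w := by
  apply (ph F).injective
  rw [ph_NA, map_smul, ph_bA, Ns_single]

theorem len_pos (w : FreeSemigroup (Fin 2)) : 1 ≤ w.length := by
  unfold FreeSemigroup.length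
  omega

theorem wd_len {n : ℕ} (w : Fin (n + 1) → Fin 2) : (wd w).length = n + 1 := by
  unfold wd FreeSemigroup.length
  simp

theorem exists_wd' {n : ℕ} (u : FreeSemigroup (Fin 2)) (h : u.length = n + 1) :
    ∃ w : Fin (n + 1) → Fin 2, wd w = u := by
  obtain ⟨a, l⟩ := u
  have h1 : l.length = n := by
    unfold FreeSemigroup.length at h
    simpa using h
  subst h1
  refine ⟨Fin.cons a l.get, ?_⟩
  unfold wd
  simp

theorem card_len {n : ℕ} (hn : 1 ≤ n) :
    Nat.card {u : FreeSemigroup (Fin 2) // u.length = n} = 2 ^ n := by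
  obtain ⟨m, rfl⟩ := Nat.exists_eq_add_of_le' hn
  have h : Function.Bijective (fun w : Fin (m + 1) → Fin 2 =>
      (⟨wd w, wd_len w⟩ : {u : FreeSemigroup (Fin 2) // u.length = m + 1})) := by
    constructor
    · intro w w' hw
      exact wd_injective m (congrArg Subtype.val hw)
    · rintro ⟨u, hu⟩
      obtain ⟨w, hw⟩ := exists_wd' u hu
      exact ⟨w, Subtype.ext hw⟩
  rw [← Nat.card_eq_of_bijective _ h]
  simp

theorem finite_len (n : ℕ) : {u : FreeSemigroup (Fin 2) | u.length ≤ n}.Finite := by
  have h : {u : FreeSemigroup (Fin 2) | u.length ≤ n} ⊆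
      ⋃ i ∈ Finset.range n, Set.range (fun w : Fin (i + 1) → Fin 2 => wd w) := by
    intro u hu
    have hu' : u.length ≤ n := hu
    have hp := len_pos u
    simp only [Set.mem_iUnion]
    obtain ⟨w, hw⟩ := exists_wd' (n := u.length - 1) u (by omega)
    exact ⟨u.length - 1, Finset.mem_range.2 (by omega), w, hw⟩
  exact (Set.Finite.biUnion (Finset.finite_toSet _) fun i _ => Set.finite_range _).subset h

/-- a word of length at least two is a product -/
theorem exists_mul {u : FreeSemigroup (Fin 2)} (h : 2 ≤ u.length) : ∃ v w, u = v * w := by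
  obtain ⟨a, l⟩ := u
  cases l with
  | nil =>
    unfold FreeSemigroup.length at h
    simp at h
  | cons b l => exact ⟨⟨a, []⟩, ⟨b, l⟩, rfl⟩

end Pool.Agent.U691.HA
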