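import Pool.Agent.U691.HA.Act
import Pool.Agent.U691.HA.Free
import Pool.Agent.U691.CE3.Count3
import Pool.Agent.U691.CE3.Hyp3

/-!
# A homogeneous basis of `ABG(Alt(V))`, `dim V = 2`
-/

set_option autoImplicit false
set_option linter.unusedSectionVars false
set_option linter.unusedSimpArgs false

namespace Pool.Agent.U691.HA

open Pool.Agent.U691.CE Pool.Agent.U691.CE3 Pool.Agent.U691.Shang

section General

variable {F : Type} [Field F] {A : Type} [NonUnitalRing A] [Module F A]

/-- the matrix `X ⊗ p` -/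
def TM (X : Matrix (Fin 3) (Fin 3) F) (p : A) : Matrix (Fin 3) (Fin 3) A := fun i j => X i j • p

/-- `X ⊗ p` -/
def tensM (X : Matrix (Fin 3) (Fin 3) F) (p : A) : GG F A := GG.mk (TM X p) 0

variable [IsScalarTower F A A] [SMulCommClass F A A]

/-- `β` as an element of `gl₃(A) ⊕ B(A)` -/
noncomputable def WM (β : BA F A) : GG F A := GG.mk (Matrix.diagonal fun _ => kap β) β

variable [CharZero F]

theorem actG_tensM (X Y : Matrix (Fin 3) (Fin 3) F) (p : A) :
    actG X (tensM Y p) = tensM (X * Y - Y * X) p := by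
  ext1
  · ext i j
    simp only [pm_actG, tensM, TM, GG.pm_mk, lm, rm, Matrix.sub_apply, Matrix.mul_apply,
      Fin.sum_univ_three]
    module
  · rfl

theorem actG_WM (X : Matrix (Fin 3) (Fin 3) F) (β : BA F A) : actG X (WM β) = 0 := by
  ext1
  · ext i j
    simp only [pm_actG, WM, GG.pm_mk, lm, rm, Matrix.sub_apply, GG.pm_zero, Matrix.zero_apply]
    rw [Finset.sum_eq_single j, Finset.sum_eq_single i]
    · simp
    · intro k _ hk
      rw [Matrix.diagonal_apply_ne _ hk.symm, smul_zero]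
    · intro h; exact absurd (Finset.mem_univ _) h
    · intro k _ hk
      rw [Matrix.diagonal_apply_ne _ hk, smul_zero]
    · intro h; exact absurd (Finset.mem_univ _) h
  · rfl

theorem tensM_smul (c : F) (X : Matrix (Fin 3) (Fin 3) F) (p : A) :
    tensM (c • X) p = c • tensM X p := by
  ext1
  · ext i j
    simp only [tensM, TM, GG.pm_mk, GG.pm_smul, Matrix.smul_apply, smul_eq_mul, mul_smul]
  · simp [tensM]

theorem tensM_mem {X : Matrix (Fin 3) (Fin 3) F} (hX : X.trace = 0) (p : A) :
    tensM X p ∈ abg F A := by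
  rw [mem_abg]
  simp only [tensM, GG.pm_mk, GG.pb_mk, map_zero, smul_zero, Matrix.trace, Matrix.diag, TM]
  rw [← Finset.sum_smul]
  have : ∑ i, X i i = 0 := hX
  rw [this, zero_smul]

theorem WM_mem (β : BA F A) : WM β ∈ abg F A := by
  rw [mem_abg]
  simp only [WM, GG.pm_mk, GG.pb_mk, Matrix.trace_diagonal, Finset.sum_const, Finset.card_univ,
    Fintype.card_fin]
  module

/-- the eight matrices of the basis of `sl₃` -/
noncomputable def S (F : Type) [Field F] : Fin 8 → Matrix (Fin 3) (Fin 3) F :=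
  ![E F 0 1, E F 1 2, E F 0 2, E F 1 0, E F 2 1, E F 2 0, E F 0 0 - E F 1 1, E F 1 1 - E F 2 2]

theorem S_trace (j : Fin 8) : (S F j).trace = 0 := by
  fin_cases j <;> simp [S, E, Matrix.trace_fin_three, Matrix.single]

/-- the isomorphism of `A⁸ ⊕ B(A)` with `ABG(A)` -/
noncomputable def Ps : ((Fin 8 → A) × BA F A) ≃ₗ[F] G F A where
  toFun x := ⟨GG.mk !![kap x.2 + x.1 6, x.1 0, x.1 2;
      x.1 3, kap x.2 - x.1 6 + x.1 7, x.1 1;
      x.1 5, x.1 4, kap x.2 - x.1 7] x.2, by
    rw [mem_abg, Matrix.trace_fin_three]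
    simp
    module⟩
  invFun m := (![GG.pm m.1 0 1, GG.pm m.1 1 2, GG.pm m.1 0 2, GG.pm m.1 1 0, GG.pm m.1 2 1,
    GG.pm m.1 2 0, GG.pm m.1 0 0 - kap (GG.pb m.1), kap (GG.pb m.1) - GG.pm m.1 2 2], GG.pb m.1)
  map_add' x y := by
    apply Subtype.ext
    show GG.mk _ _ = GG.mk _ _ + GG.mk _ _
    ext1
    · ext i j
      fin_cases i <;> fin_cases j <;> simp <;> abel
    · simp
  map_smul' c x := by
    apply Subtype.ext
    show GG.mk _ _ = c • GG.mk _ _
    ext1
    · ext i j
      fin_cases i <;> fin_cases j <;> simp <;> module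
    · simp
  left_inv x := by
    refine Prod.ext ?_ rfl
    funext j
    fin_cases j <;> simp
  right_inv m := by
    have h := (mem_abg).1 m.2
    rw [Matrix.trace_fin_three] at h
    apply Subtype.ext
    ext1
    · ext i j
      fin_cases i <;> fin_cases j <;> simp
      linear_combination (norm := module) -h
    · rfl

theorem Ps_single (j : Fin 8) (p : A) : (Ps (F := F) (Pi.single j p, 0)).1 = tensM (S F j) p := by
  show GG.mk _ _ = GG.mk _ _
  ext1
  · ext i k
    fin_cases j <;> fin_cases i <;> fin_cases k <;>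
      simp [S, E, TM, Matrix.single, Pi.single_apply]
  · rfl

theorem Ps_right (β : BA F A) : (Ps (F := F) ((0 : Fin 8 → A), β)).1 = WM β := by
  show GG.mk _ _ = GG.mk _ _
  ext1
  · ext i k
    fin_cases i <;> fin_cases k <;> simp
  · rfl

theorem kap_derB (D : A →ₗ[F] A) (hD : ∀ a b, D (a * b) = D a * b + a * D b) (β : BA F A) :
    kap (derB D hD β) = D (kap β) := by
  induction β using BA_ind with
  | h1 u v =>
    rw [derB_wdg, map_add, kap_wdg, kap_wdg, kap_wdg, map_sub, hD, hD]
    abel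
  | h2 x y hx hy => simp only [map_add, hx, hy]

theorem om_map (D : A →ₗ[F] A) (hD : ∀ a b, D (a * b) = D a * b + a * D b)
    (M N : Matrix (Fin 3) (Fin 3) A) :
    derB D hD (om F M N) = om F (M.map D) N + om F M (N.map D) := by
  simp only [om, map_sum, derB_wdg, Matrix.map_apply, Finset.sum_add_distrib]

theorem mul_map (D : A →ₗ[F] A) (hD : ∀ a b, D (a * b) = D a * b + a * D b)
    (M N : Matrix (Fin 3) (Fin 3) A) : (M * N).map D = M.map D * N + M * N.map D := by
  ext i j
  simp only [Matrix.map_apply, Matrix.add_apply, Matrix.mul_apply, map_sum, hD,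
    Finset.sum_add_distrib]

/-- the extension of a derivation of `A` to `ABG(A)` -/
noncomputable def ext' (D : A →ₗ[F] A) (hD : ∀ a b, D (a * b) = D a * b + a * D b) :
    G F A →ₗ[F] G F A where
  toFun x := ⟨GG.mk ((GG.pm x.1).map D) (derB D hD (GG.pb x.1)), by
    have h := (mem_abg).1 x.2
    rw [mem_abg, GG.pm_mk, GG.pb_mk, kap_derB, ← map_smul, ← h]
    simp [Matrix.trace]⟩
  map_add' x y := by
    apply Subtype.ext
    show GG.mk _ _ = GG.mk _ _ + GG.mk _ _
    ext1
    · ext i j
      simp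
    · simp
  map_smul' c x := by
    apply Subtype.ext
    show GG.mk _ _ = c • GG.mk _ _
    ext1
    · ext i j
      simp
    · simp

theorem pm_ext' (D : A →ₗ[F] A) (hD : ∀ a b, D (a * b) = D a * b + a * D b) (x : G F A) :
    GG.pm (ext' D hD x).1 = (GG.pm x.1).map D := rfl

theorem pb_ext' (D : A →ₗ[F] A) (hD : ∀ a b, D (a * b) = D a * b + a * D b) (x : G F A) :
    GG.pb (ext' D hD x).1 = derB D hD (GG.pb x.1) := rfl

theorem isDer_ext' (D : A →ₗ[F] A) (hD : ∀ a b, D (a * b) = D a * b + a * D b) :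
    IsDer (ext' D hD : G F A →ₗ[F] G F A) := by
  intro x y
  apply Subtype.ext
  show (ext' D hD ⁅x, y⁆).1 = ⁅(ext' D hD x).1, y.1⁆ + ⁅x.1, (ext' D hD y).1⁆
  ext1
  · rw [pm_ext', GG.pm_add, GG.pm_lie, GG.pm_lie, pm_ext', pm_ext']
    show (GG.pm x.1 * GG.pm y.1 - GG.pm y.1 * GG.pm x.1).map D = _
    rw [Matrix.map_sub D (map_sub D), mul_map D hD, mul_map D hD]
    abel
  · rw [pb_ext', GG.pb_add, GG.pb_lie, GG.pb_lie, pm_ext', pm_ext']
    show derB D hD ((3 : F)⁻¹ • om F (GG.pm x.1) (GG.pm y.1)) = _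
    rw [map_smul, om_map, smul_add]

theorem ext'_act (D : A →ₗ[F] A) (hD : ∀ a b, D (a * b) = D a * b + a * D b)
    (X : Matrix (Fin 3) (Fin 3) F) (x : G F A) :
    ext' D hD (act X x) = act X (ext' D hD x) := by
  apply Subtype.ext
  ext1
  · rw [pm_ext', act_val, act_val, pm_actG, pm_actG, pm_ext']
    ext i j
    simp only [Matrix.map_apply, Matrix.sub_apply, lm, rm, map_sub, map_sum, map_smul]
  · rw [pb_ext', act_val, act_val, pb_actG, pb_actG, map_zero]

end General

variable (F : Type) [Field F] [CharZero F]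

/-- words -/
abbrev Wd : Type := FreeSemigroup (Fin 2)

/-- the elements `u ∧ v`, `u, v` words -/
noncomputable def wm (p : Wd × Wd) : BA F (FreeAlt F 2) := wdg F (bA F p.1) (bA F p.2)

theorem span_wm : Submodule.span F (Set.range (wm F)) = ⊤ := by
  rw [eq_top_iff]
  rintro x -
  induction x using BA_ind with
  | h1 u v =>
    have hu : u ∈ Submodule.span F (Set.range (bA F)) := by
      rw [(bA F).span_eq]; trivial
    have hv : v ∈ Submodule.span F (Set.range (bA F)) := by
      rw [(bA F).span_eq]; trivial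
    induction hu using Submodule.span_induction with
    | mem x hx =>
      obtain ⟨m, rfl⟩ := hx
      induction hv using Submodule.span_induction with
      | mem y hy =>
        obtain ⟨m', rfl⟩ := hy
        exact Submodule.subset_span ⟨(m, m'), rfl⟩
      | zero => rw [wdg_zero_right]; exact Submodule.zero_mem _
      | add x y _ _ hx hy => rw [wdg_add_right]; exact Submodule.add_mem _ hx hy
      | smul c x _ hx => rw [wdg_smul_right]; exact Submodule.smul_mem _ _ hx
    | zero => rw [wdg_zero_left]; exact Submodule.zero_mem _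
    | add x y _ _ hx hy => rw [wdg_add_left]; exact Submodule.add_mem _ hx hy
    | smul c x _ hx => rw [wdg_smul_left]; exact Submodule.smul_mem _ _ hx
  | h2 x y hx hy => exact Submodule.add_mem _ hx hy

/-- the index set of a basis of `B(A)` -/
noncomputable def IB : Type := (exists_linearIndependent' F (wm F)).choose

/-- the pairs of words of the basis of `B(A)` -/
noncomputable def aB : IB F → Wd × Wd :=
  (exists_linearIndependent' F (wm F)).choose_spec.choose

theorem aB_inj : Function.Injective (aB F) :=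
  (exists_linearIndependent' F (wm F)).choose_spec.choose_spec.1

/-- the basis of `B(A)` -/
noncomputable def bB : Module.Basis (IB F) F (BA F (FreeAlt F 2)) :=
  Module.Basis.mk (v := wm F ∘ aB F)
    (exists_linearIndependent' F (wm F)).choose_spec.choose_spec.2.2
    ((exists_linearIndependent' F (wm F)).choose_spec.choose_spec.2.1.trans (span_wm F)).ge

theorem bB_apply (j : IB F) : bB F j = wdg F (bA F (aB F j).1) (bA F (aB F j).2) := by
  exact Module.Basis.mk_apply _ _ j

/-- the index set of the basis of `ABG(A)` -/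
abbrev IT : Type := (Σ _ : Fin 8, Wd) ⊕ IB F

/-- the basis of `ABG(A)` -/
noncomputable def bT : Module.Basis (IT F) F (G F (FreeAlt F 2)) :=
  ((Pi.basis fun _ : Fin 8 => bA F).prod (bB F)).map Ps

theorem bT_1 (j : Fin 8) (w : Wd) : (bT F (Sum.inl ⟨j, w⟩)).1 = tensM (S F j) (bA F w) := by
  rw [← Ps_single]
  unfold bT
  rw [Module.Basis.map_apply]
  congr 2
  refine Prod.ext ?_ ?_
  · rw [Module.Basis.prod_apply_inl_fst, Pi.basis_apply]
  · rw [Module.Basis.prod_apply_inl_snd]

theorem bT_2 (j : IB F) : (bT F (Sum.inr j)).1 =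
    WM (wdg F (bA F (aB F j).1) (bA F (aB F j).2)) := by
  rw [← Ps_right]
  unfold bT
  rw [Module.Basis.map_apply]
  congr 2
  refine Prod.ext ?_ ?_
  · rw [Module.Basis.prod_apply_inr_fst]
  · rw [Module.Basis.prod_apply_inr_snd, bB_apply]

/-- the degrees of the basis elements -/
noncomputable def dT : IT F → ℤ :=
  Sum.elim (fun p => p.2.length) (fun j => (aB F j).1.length + (aB F j).2.length)

/-- the weights of the eight matrices -/
def wA8 : Fin 8 → ℤ := ![1, 0, 1, -1, 0, -1, 0, 0]

/-- the weights of the eight matrices -/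
def wB8 : Fin 8 → ℤ := ![0, 1, 1, 0, -1, -1, 0, 0]

/-- the weights of the basis elements -/
def waT : IT F → ℤ := Sum.elim (fun p => wA8 p.1) (fun _ => 0)

/-- the weights of the basis elements -/
def wbT : IT F → ℤ := Sum.elim (fun p => wB8 p.1) (fun _ => 0)

open Classical in
noncomputable instance : LinearOrder (IT F) := linearOrderOfSTO WellOrderingRel

theorem A_S (j : Fin 8) : E F 0 0 * S F j - S F j * E F 0 0 = (wA8 j : F) • S F j := by
  fin_cases j <;> simp [S, E_mul, wA8, mul_sub, sub_mul]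

theorem B_S (j : Fin 8) : (E F 0 0 * S F j - S F j * E F 0 0) +
    (E F 1 1 * S F j - S F j * E F 1 1) = (wB8 j : F) • S F j := by
  fin_cases j <;> simp [S, E_mul, wB8, mul_sub, sub_mul]

theorem tensM_add {A : Type} [NonUnitalRing A] [Module F A] (X Y : Matrix (Fin 3) (Fin 3) F)
    (p : A) : tensM (X + Y) p = tensM X p + tensM Y p := by
  ext1
  · ext i j
    simp only [tensM, TM, GG.pm_mk, GG.pm_add, Matrix.add_apply, add_smul]
  · simp [tensM]

theorem wa_bT (j : IT F) : act (E F 0 0) (bT F j) = (waT F j : F) • bT F j := by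
  apply Subtype.ext
  rcases j with ⟨j, w⟩ | j
  · rw [act_val, bT_1, actG_tensM, A_S, tensM_smul]
    show _ = ((waT F (Sum.inl ⟨j, w⟩) : ℤ) : F) • (bT F (Sum.inl ⟨j, w⟩)).1
    rw [bT_1]
    rfl
  · rw [act_val, bT_2, actG_WM]
    show _ = ((waT F (Sum.inr j) : ℤ) : F) • (bT F (Sum.inr j)).1
    simp [waT]

theorem wb_bT (j : IT F) : (act (E F 0 0) + act (E F 1 1) :
    G F (FreeAlt F 2) →ₗ[F] G F (FreeAlt F 2)) (bT F j) = (wbT F j : F) • bT F j := by
  apply Subtype.ext
  rcases j with ⟨j, w⟩ | j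
  · show actG (E F 0 0) (bT F (Sum.inl ⟨j, w⟩)).1 + actG (E F 1 1) (bT F (Sum.inl ⟨j, w⟩)).1 =
      ((wbT F (Sum.inl ⟨j, w⟩) : ℤ) : F) • (bT F (Sum.inl ⟨j, w⟩)).1
    rw [bT_1, actG_tensM, actG_tensM, ← tensM_add, B_S, tensM_smul]
    rfl
  · show actG (E F 0 0) (bT F (Sum.inr j)).1 + actG (E F 1 1) (bT F (Sum.inr j)).1 =
      ((wbT F (Sum.inr j) : ℤ) : F) • (bT F (Sum.inr j)).1
    rw [bT_2, actG_WM, actG_WM]
    simp [wbT]

/-- the degree derivation -/
noncomputable def NT : G F (FreeAlt F 2) →ₗ[F] G F (FreeAlt F 2) := ext' (NA F) (NA_mul F)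

theorem N_bT (j : IT F) : NT F (bT F j) = (dT F j : F) • bT F j := by
  apply Subtype.ext
  rcases j with ⟨j, w⟩ | j
  · show (ext' (NA F) (NA_mul F) (bT F (Sum.inl ⟨j, w⟩))).1 =
      ((dT F (Sum.inl ⟨j, w⟩) : ℤ) : F) • (bT F (Sum.inl ⟨j, w⟩)).1
    ext1
    · rw [pm_ext', bT_1]
      ext i k
      simp only [tensM, TM, GG.pm_mk, GG.pm_smul, Matrix.map_apply, Matrix.smul_apply, map_smul,
        NA_bA]
      rw [smul_comm]
      simp [dT]
    · rw [pb_ext', bT_1]
      simp [tensM]
  · show (ext' (NA F) (NA_mul F) (bT F (Sum.inr j))).1 =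
      ((dT F (Sum.inr j) : ℤ) : F) • (bT F (Sum.inr j)).1
    have h1 : derB (NA F) (NA_mul F) (wdg F (bA F (aB F j).1) (bA F (aB F j).2)) =
        ((dT F (Sum.inr j) : ℤ) : F) • wdg F (bA F (aB F j).1) (bA F (aB F j).2) := by
      rw [derB_wdg, NA_bA, NA_bA, wdg_smul_left, wdg_smul_right, ← add_smul]
      simp [dT]
    ext1
    · rw [pm_ext', bT_2]
      simp only [WM, GG.pm_mk, GG.pm_smul]
      rw [Matrix.diagonal_map (map_zero _)]
      ext i k
      rw [Matrix.smul_apply]
      by_cases hik : i = k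
      · subst hik
        rw [Matrix.diagonal_apply_eq, Matrix.diagonal_apply_eq]
        rw [← kap_derB (NA F) (NA_mul F), h1, map_smul]
      · rw [Matrix.diagonal_apply_ne _ hik, Matrix.diagonal_apply_ne _ hik, smul_zero]
    · rw [pb_ext', bT_2]
      exact h1

theorem finite_aB (n : ℕ) : {j : IB F | (aB F j).1.length + (aB F j).2.length ≤ n}.Finite := by
  have h : {j : IB F | (aB F j).1.length + (aB F j).2.length ≤ n} ⊆
      aB F ⁻¹' ({m : Wd | m.length ≤ n} ×ˢ {m : Wd | m.length ≤ n}) := by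
    intro j hj
    have hj' : (aB F j).1.length + (aB F j).2.length ≤ n := hj
    exact ⟨by show (aB F j).1.length ≤ n; omega, by show (aB F j).2.length ≤ n; omega⟩
  exact (((finite_len n).prod (finite_len n)).preimage (aB_inj F).injOn).subset h

theorem wA8_le (j : Fin 8) : wA8 j ≤ 1 ∧ -1 ≤ wA8 j := by
  fin_cases j <;> simp [wA8]

theorem wB8_le (j : Fin 8) : wB8 j ≤ 1 ∧ -1 ≤ wB8 j := by
  fin_cases j <;> simp [wB8]

/-- the data for `ABG(Alt(V))` -/
noncomputable def XT : Dat3 F (G F (FreeAlt F 2)) (IT F) where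
  b := bT F
  R := RG F (FreeAlt F 2)
  N := NT F
  de1 := isDer_act _
  de2 := isDer_act _
  df1 := isDer_act _
  df2 := isDer_act _
  dA := isDer_act _
  dB := by
    intro x y
    show act (E F 0 0) ⁅x, y⁆ + act (E F 1 1) ⁅x, y⁆ =
      ⁅act (E F 0 0) x + act (E F 1 1) x, y⁆ + ⁅x, act (E F 0 0) y + act (E F 1 1) y⁆
    rw [isDer_act, isDer_act, add_lie, lie_add]
    abel
  dN := isDer_ext' _ _
  Ne1 := ext'_act _ _ _
  Ne2 := ext'_act _ _ _
  Nf1 := ext'_act _ _ _
  Nf2 := ext'_act _ _ _
  deg := dT F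
  wa := waT F
  wb := wbT F
  hdeg := N_bT F
  hwa := wa_bT F
  hwb := wb_bT F
  pos j := by
    rcases j with ⟨j, w⟩ | j
    · have := len_pos w; simp only [dT, Sum.elim_inl]; omega
    · have := len_pos (aB F j).1; simp only [dT, Sum.elim_inr]; omega
  bda1 j := by
    rcases j with ⟨j, w⟩ | j
    · have := len_pos w; have := wA8_le j; simp only [dT, waT, Sum.elim_inl]; omega
    · have := len_pos (aB F j).1; simp only [dT, waT, Sum.elim_inr]; omega
  bda2 j := by
    rcases j with ⟨j, w⟩ | j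
    · have := len_pos w; have := wA8_le j; simp only [dT, waT, Sum.elim_inl]; omega
    · have := len_pos (aB F j).1; simp only [dT, waT, Sum.elim_inr]; omega
  bdb1 j := by
    rcases j with ⟨j, w⟩ | j
    · have := len_pos w; have := wB8_le j; simp only [dT, wbT, Sum.elim_inl]; omega
    · have := len_pos (aB F j).1; simp only [dT, wbT, Sum.elim_inr]; omega
  bdb2 j := by
    rcases j with ⟨j, w⟩ | j
    · have := len_pos w; have := wB8_le j; simp only [dT, wbT, Sum.elim_inl]; omega
    · have := len_pos (aB F j).1; simp only [dT, wbT, Sum.elim_inr]; omega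
  fin n := by
    have h1 : {p : Σ _ : Fin 8, Wd | p.2.length ≤ n.toNat}.Finite := by
      have h3 : {p : Σ _ : Fin 8, Wd | p.2.length ≤ n.toNat} ⊆
          ⋃ i : Fin 8, (fun w : Wd => (⟨i, w⟩ : Σ _ : Fin 8, Wd)) '' {u | u.length ≤ n.toNat} := by
        rintro ⟨i, w⟩ hw
        exact Set.mem_iUnion.2 ⟨i, w, hw, rfl⟩
      exact (Set.finite_iUnion fun i => (finite_len n.toNat).image _).subset h3
    have h2 := finite_aB F n.toNat
    have h : {j : IT F | dT F j ≤ n} ⊆
        Sum.inl '' {p : Σ _ : Fin 8, Wd | p.2.length ≤ n.toNat} ∪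
        Sum.inr '' {j : IB F | (aB F j).1.length + (aB F j).2.length ≤ n.toNat} := by
      intro j hj
      have hj' : dT F j ≤ n := hj
      rcases j with p | j
      · simp only [dT, Sum.elim_inl] at hj'
        exact Or.inl ⟨p, by show p.2.length ≤ _; omega, rfl⟩
      · simp only [dT, Sum.elim_inr] at hj'
        exact Or.inr ⟨j, by show (aB F j).1.length + (aB F j).2.length ≤ _; omega, rfl⟩
    exact ((h1.image _).union (h2.image _)).subset h

end Pool.Agent.U691.HA
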