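import Pool.Agent.U691.HA.Num

/-!
# The homology of `ABG(Alt(V))`, `dim V = 2`: conclusion
-/

set_option autoImplicit false
set_option linter.unusedSectionVars false
set_option linter.unusedSimpArgs false

namespace Pool.Agent.U691.HA

open Pool.Agent.U691.CE Pool.Agent.U691.CE3 Pool.Agent.U691.Shang

variable (F : Type) [Field F] [CharZero F]

theorem eu_all (hno : ∀ k : ℕ, 2 ≤ k → k ≤ 17 →
    ¬ TrivialIn F (G F (FreeAlt F 2)) (slAct F (FreeAlt F 2)) k ∧
    ¬ AdjointIn F (G F (FreeAlt F 2)) (slAct F (FreeAlt F 2)) k) (n : ℕ) (hn : 2 ≤ n)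
    (hn2 : n ≤ 17) : (XT F).eu n 0 0 = 0 ∧ (XT F).eu n 1 1 = 0 := by
  have h1 : ∀ a b : ℤ, ∀ v ∈ (XT F).V 1 n a b, v ∈ Bk F (G F (FreeAlt F 2)) 1 := by
    intro a b
    apply (XT F).hyp_one
    intro j hj
    apply bT_Br
    have : dT F j = n := hj
    omega
  have hbig : ∀ (k : ℕ) (a b : ℤ), n < k → ∀ v ∈ (XT F).V k n a b,
      v ∈ Bk F (G F (FreeAlt F 2)) k := by
    intro k a b hk v hv
    rw [(XT F).V_bot, Submodule.mem_bot] at hv
    · rw [hv]; exact Submodule.zero_mem _
    · intro s h1 h2 _ _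
      have := (XT F).card_le s
      omega
  constructor
  · apply (XT F).eu_zero n (by omega) hn2 (by norm_num) (by norm_num)
    intro k hk v hv he1 he2 hd
    rcases Nat.lt_or_ge k 2 with h | h
    · have : k = 1 := by omega
      subst this
      exact h1 _ _ v hv
    · rcases Nat.lt_or_ge 17 k with h17 | h17
      · exact hbig _ _ _ (by omega) v hv
      · exact (XT F).hyp_zero (no_zero (hno k h h17).1) n v hv he1 he2 hd
  · apply (XT F).eu_zero n (by omega) hn2 (by norm_num) (by norm_num)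
    intro k hk v hv he1 he2 hd
    rcases Nat.lt_or_ge k 2 with h | h
    · have : k = 1 := by omega
      subst this
      exact h1 _ _ v hv
    · rcases Nat.lt_or_ge 17 k with h17 | h17
      · exact hbig _ _ _ (by omega) v hv
      · exact (XT F).hyp_adj (no_adj (hno k h h17).2) n v hv he1 he2 hd

theorem card_w (a b : ℤ) (n : ℕ) (h : ((Finset.univ : Finset (Fin 8)).filter
    fun i => wA8 i = a ∧ wB8 i = b).card = n) : (XT F).c1 a b = n * 2 := by
  rw [c1_eq, ← h]
  congr 1
  rw [Nat.card_eq_fintype_card, Fintype.card_subtype]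

theorem eu_0_0 : (XT F).eu 0 0 0 = 1 := by
  unfold Dat3.eu
  simp only [Dat3.chi_zero]
  norm_num

theorem eu_0_1 : (XT F).eu 0 1 1 = 0 := by
  unfold Dat3.eu
  simp only [Dat3.chi_zero]
  norm_num

theorem eu_1_0 : (XT F).eu 1 0 0 = 0 := by
  unfold Dat3.eu
  simp only [Dat3.chi_one]
  rw [card_w F 0 0 2 (by decide), card_w F (0 + 1) 0 1 (by decide), card_w F 0 (0 + 1) 1 (by decide),
    card_w F (0 + 2) (0 + 1) 0 (by decide), card_w F (0 + 1) (0 + 2) 0 (by decide),
    card_w F (0 + 2) (0 + 2) 0 (by decide)]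
  norm_num

theorem eu_1_1 : (XT F).eu 1 1 1 = -2 := by
  unfold Dat3.eu
  simp only [Dat3.chi_one]
  rw [card_w F 1 1 1 (by decide), card_w F (1 + 1) 1 0 (by decide), card_w F 1 (1 + 1) 0 (by decide),
    card_w F (1 + 2) (1 + 1) 0 (by decide), card_w F (1 + 1) (1 + 2) 0 (by decide),
    card_w F (1 + 2) (1 + 2) 0 (by decide)]
  norm_num

theorem main (hno : ∀ k : ℕ, 2 ≤ k → k ≤ 17 →
    ¬ TrivialIn F (G F (FreeAlt F 2)) (slAct F (FreeAlt F 2)) k ∧
    ¬ AdjointIn F (G F (FreeAlt F 2)) (slAct F (FreeAlt F 2)) k) : False := by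
  have hA := eu_all F hno
  obtain ⟨β, hβ⟩ := Phi_eq F
  refine no_scalar β ?_ ?_
  · rw [← hβ]
    have h := (XT F).mt_Phi 0 0
    rw [Finset.sum_eq_single_of_mem 0 (by simp)] at h
    · rw [eu_0_0] at h
      simpa using h
    · intro n hn hn0
      rw [Finset.mem_range] at hn
      rcases Nat.lt_or_ge n 2 with h2 | h2
      · have : n = 1 := by omega
        subst this
        rw [eu_1_0]
        simp
      · rw [(hA n h2 (by omega)).1]
        simp
  · rw [← hβ]
    have h := (XT F).mt_Phi 1 1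
    rw [Finset.sum_eq_single_of_mem 1 (by simp)] at h
    · rw [eu_1_1] at h
      rw [h]
      norm_num
    · intro n hn hn0
      rw [Finset.mem_range] at hn
      rcases Nat.lt_or_ge n 2 with h2 | h2
      · have : n = 0 := by omega
        subst this
        rw [eu_0_1]
        simp
      · rw [(hA n h2 (by omega)).2]
        simp

end Pool.Agent.U691.HA
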