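import Mathlib

/-!
# The spaces `B(A)` and the Lie algebra `ABG(A)` of an associative algebra
-/

set_option autoImplicit false
set_option linter.unusedSectionVars false
set_option linter.unusedSimpArgs false

namespace Pool.Agent.U691.HA

open scoped TensorProduct

section BA

variable (F : Type) [Field F] (A : Type) [NonUnitalNonAssocRing A] [Module F A]

/-- the relations of `B(A)`: those of `Λ²(A)`, and `pq ∧ r + qr ∧ p + rp ∧ q` -/
def relB : Set (A ⊗[F] A) :=
  {t | (∃ p : A, t = p ⊗ₜ p) ∨
    ∃ p q r : A, t = (p * q) ⊗ₜ r + (q * r) ⊗ₜ p + (r * p) ⊗ₜ q}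

/-- `B(A)`, the quotient of `Λ²(A)` by the span of all `pq ∧ r + qr ∧ p + rp ∧ q` -/
abbrev BA : Type := (A ⊗[F] A) ⧸ Submodule.span F (relB F A)

variable {A}

/-- the class of `u ∧ v` in `B(A)` -/
noncomputable def wdg (u v : A) : BA F A := (Submodule.span F (relB F A)).mkQ (u ⊗ₜ v)

variable {F}

theorem wdg_add_left (u v w : A) : wdg F (u + v) w = wdg F u w + wdg F v w := by
  simp only [wdg, TensorProduct.add_tmul, map_add]

theorem wdg_add_right (u v w : A) : wdg F u (v + w) = wdg F u v + wdg F u w := by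
  simp only [wdg, TensorProduct.tmul_add, map_add]

theorem wdg_smul_left (c : F) (u v : A) : wdg F (c • u) v = c • wdg F u v := by
  simp only [wdg, ← TensorProduct.smul_tmul', map_smul]

theorem wdg_smul_right (c : F) (u v : A) : wdg F u (c • v) = c • wdg F u v := by
  simp only [wdg, TensorProduct.tmul_smul, map_smul]

theorem wdg_self (u : A) : wdg F u u = 0 := by
  unfold wdg
  rw [Submodule.mkQ_apply, Submodule.Quotient.mk_eq_zero]
  exact Submodule.subset_span (Or.inl ⟨u, rfl⟩)

theorem wdg_cyc (u v w : A) : wdg F (u * v) w + wdg F (v * w) u + wdg F (w * u) v = 0 := by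
  unfold wdg
  rw [← map_add, ← map_add, Submodule.mkQ_apply, Submodule.Quotient.mk_eq_zero]
  exact Submodule.subset_span (Or.inr ⟨u, v, w, rfl⟩)

theorem wdg_swap (u v : A) : wdg F u v = - wdg F v u := by
  have h := wdg_self (F := F) (u + v)
  rw [wdg_add_left, wdg_add_right, wdg_add_right, wdg_self, wdg_self, zero_add, add_zero] at h
  exact eq_neg_of_add_eq_zero_left h

theorem wdg_zero_left (v : A) : wdg F 0 v = 0 := by
  have := wdg_smul_left (F := F) 0 (0 : A) v
  rwa [zero_smul, zero_smul] at this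

theorem wdg_zero_right (v : A) : wdg F v 0 = 0 := by
  rw [wdg_swap, wdg_zero_left, neg_zero]

theorem wdg_neg_left (u v : A) : wdg F (-u) v = - wdg F u v := by
  have := wdg_smul_left (-1 : F) u v
  rwa [neg_one_smul, neg_one_smul] at this

theorem wdg_neg_right (u v : A) : wdg F u (-v) = - wdg F u v := by
  have := wdg_smul_right (-1 : F) u v
  rwa [neg_one_smul, neg_one_smul] at this

theorem wdg_sub_left (u v w : A) : wdg F (u - v) w = wdg F u w - wdg F v w := by
  rw [sub_eq_add_neg, wdg_add_left, wdg_neg_left, sub_eq_add_neg]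

theorem wdg_sub_right (u v w : A) : wdg F u (v - w) = wdg F u v - wdg F u w := by
  rw [sub_eq_add_neg, wdg_add_right, wdg_neg_right, sub_eq_add_neg]

/-- induction on elements of `B(A)` -/
theorem BA_ind {P : BA F A → Prop} (h1 : ∀ u v, P (wdg F u v))
    (h2 : ∀ x y, P x → P y → P (x + y)) (β : BA F A) : P β := by
  obtain ⟨t, rfl⟩ := Submodule.mkQ_surjective _ β
  induction t using TensorProduct.induction_on with
  | zero =>
    have := h1 0 0
    rwa [wdg_zero_left] at this
  | tmul x y => exact h1 x y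
  | add x y hx hy => rw [map_add]; exact h2 _ _ hx hy

/-- linear maps out of `B(A)` -/
noncomputable def liftB {M : Type} [AddCommGroup M] [Module F M] (f : A →ₗ[F] A →ₗ[F] M)
    (h1 : ∀ u, f u u = 0) (h2 : ∀ u v w, f (u * v) w + f (v * w) u + f (w * u) v = 0) :
    BA F A →ₗ[F] M :=
  Submodule.liftQ _ (TensorProduct.lift f) (by
    rw [Submodule.span_le]
    rintro t (⟨u, rfl⟩ | ⟨u, v, w, rfl⟩)
    · show TensorProduct.lift f _ = 0
      rw [TensorProduct.lift.tmul, h1]
    · show TensorProduct.lift f _ = 0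
      rw [map_add, map_add, TensorProduct.lift.tmul, TensorProduct.lift.tmul,
        TensorProduct.lift.tmul, h2])

theorem liftB_wdg {M : Type} [AddCommGroup M] [Module F M] (f : A →ₗ[F] A →ₗ[F] M)
    (h1 : ∀ u, f u u = 0) (h2 : ∀ u v w, f (u * v) w + f (v * w) u + f (w * u) v = 0) (u v : A) :
    liftB f h1 h2 (wdg F u v) = f u v := by
  unfold liftB wdg
  rw [Submodule.mkQ_apply, Submodule.liftQ_apply, TensorProduct.lift.tmul]

/-- the action of a derivation `D` of `A` on `B(A)`: `u ∧ v ↦ D u ∧ v + u ∧ D v` -/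
noncomputable def derB (D : A →ₗ[F] A) (hD : ∀ a b, D (a * b) = D a * b + a * D b) :
    BA F A →ₗ[F] BA F A :=
  liftB (LinearMap.mk₂ F (fun u v => wdg F (D u) v + wdg F u (D v))
    (by intro a b c; simp only [wdg_add_left, map_add]; abel)
    (by intro c a b; simp only [wdg_smul_left, map_smul, smul_add])
    (by intro a b c; simp only [wdg_add_right, map_add]; abel)
    (by intro c a b; simp only [wdg_smul_right, map_smul, smul_add]))
    (fun u => by
      simp only [LinearMap.mk₂_apply]
      rw [wdg_swap u (D u), add_neg_cancel])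
    (fun u v w => by
      simp only [LinearMap.mk₂_apply, hD, wdg_add_left]
      have h1 := wdg_cyc (F := F) (D u) v w
      have h2 := wdg_cyc (F := F) u (D v) w
      have h3 := wdg_cyc (F := F) u v (D w)
      linear_combination (norm := abel) h1 + h2 + h3)

theorem derB_wdg (D : A →ₗ[F] A) (hD : ∀ a b, D (a * b) = D a * b + a * D b) (u v : A) :
    derB D hD (wdg F u v) = wdg F (D u) v + wdg F u (D v) := by
  unfold derB
  rw [liftB_wdg]
  rfl

end BA

section Om

variable {F : Type} [Field F] {A : Type} [NonUnitalRing A] [Module F A]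
  [IsScalarTower F A A] [SMulCommClass F A A]

/-- `κ(p ∧ q) = pq - qp` -/
noncomputable def kap : BA F A →ₗ[F] A :=
  liftB (LinearMap.mk₂ F (fun p q : A => p * q - q * p)
    (by intro a b c; simp only [add_mul, mul_add]; abel)
    (by intro c a b; simp only [smul_mul_assoc, mul_smul_comm, smul_sub])
    (by intro a b c; simp only [add_mul, mul_add]; abel)
    (by intro c a b; simp only [smul_mul_assoc, mul_smul_comm, smul_sub]))
    (fun u => by
      simp only [LinearMap.mk₂_apply, sub_self])
    (fun u v w => by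
      simp only [LinearMap.mk₂_apply, mul_assoc]
      abel)

theorem kap_wdg (p q : A) : kap (wdg F p q) = p * q - q * p := by
  unfold kap
  rw [liftB_wdg]
  rfl

variable (F) in
/-- `∑ M_ij ∧ N_ji` -/
noncomputable def om (M N : Matrix (Fin 3) (Fin 3) A) : BA F A :=
  ∑ i, ∑ j, wdg F (M i j) (N j i)

theorem om_add_left (M N P : Matrix (Fin 3) (Fin 3) A) : om F (M + N) P = om F M P + om F N P := by
  simp only [om, Matrix.add_apply, wdg_add_left, Finset.sum_add_distrib]

theorem om_add_right (M N P : Matrix (Fin 3) (Fin 3) A) : om F M (N + P) = om F M N + om F M P := by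
  simp only [om, Matrix.add_apply, wdg_add_right, Finset.sum_add_distrib]

theorem om_smul_left (c : F) (M N : Matrix (Fin 3) (Fin 3) A) : om F (c • M) N = c • om F M N := by
  simp only [om, Matrix.smul_apply, wdg_smul_left, Finset.smul_sum]

theorem om_smul_right (c : F) (M N : Matrix (Fin 3) (Fin 3) A) : om F M (c • N) = c • om F M N := by
  simp only [om, Matrix.smul_apply, wdg_smul_right, Finset.smul_sum]

theorem om_swap (M N : Matrix (Fin 3) (Fin 3) A) : om F M N = - om F N M := by
  unfold om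
  rw [Finset.sum_comm, ← Finset.sum_neg_distrib]
  refine Finset.sum_congr rfl fun i _ => ?_
  rw [← Finset.sum_neg_distrib]
  refine Finset.sum_congr rfl fun j _ => ?_
  rw [wdg_swap]

theorem om_neg_left (M N : Matrix (Fin 3) (Fin 3) A) : om F (-M) N = - om F M N := by
  have := om_smul_left (-1 : F) M N
  rwa [neg_one_smul, neg_one_smul] at this

theorem om_sub_left (M N P : Matrix (Fin 3) (Fin 3) A) : om F (M - N) P = om F M P - om F N P := by
  rw [sub_eq_add_neg, om_add_left, om_neg_left, sub_eq_add_neg]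

theorem om_sub_right (M N P : Matrix (Fin 3) (Fin 3) A) :
    om F M (N - P) = om F M N - om F M P := by
  rw [om_swap, om_sub_left, om_swap N, om_swap P]
  abel

theorem om_self [CharZero F] (M : Matrix (Fin 3) (Fin 3) A) : om F M M = 0 := by
  have h := om_swap (F := F) M M
  have h2 : (2 : F) • om F M M = 0 := by
    rw [two_smul]; nth_rw 2 [h]; abel
  exact (smul_eq_zero.1 h2).resolve_left two_ne_zero

theorem om_cyc (M N P : Matrix (Fin 3) (Fin 3) A) :
    om F (M * N) P + om F (N * P) M + om F (P * M) N = 0 := by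
  simp only [om, Matrix.mul_apply, Fin.sum_univ_three, wdg_add_left]
  linear_combination (norm := abel) wdg_cyc (F := F) (M 0 0) (N 0 0) (P 0 0) +
    wdg_cyc (F := F) (M 0 1) (N 1 0) (P 0 0) +
    wdg_cyc (F := F) (M 0 2) (N 2 0) (P 0 0) +
    wdg_cyc (F := F) (M 0 0) (N 0 1) (P 1 0) +
    wdg_cyc (F := F) (M 0 1) (N 1 1) (P 1 0) +
    wdg_cyc (F := F) (M 0 2) (N 2 1) (P 1 0) +
    wdg_cyc (F := F) (M 0 0) (N 0 2) (P 2 0) +
    wdg_cyc (F := F) (M 0 1) (N 1 2) (P 2 0) +
    wdg_cyc (F := F) (M 0 2) (N 2 2) (P 2 0) +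
    wdg_cyc (F := F) (M 1 0) (N 0 0) (P 0 1) +
    wdg_cyc (F := F) (M 1 1) (N 1 0) (P 0 1) +
    wdg_cyc (F := F) (M 1 2) (N 2 0) (P 0 1) +
    wdg_cyc (F := F) (M 1 0) (N 0 1) (P 1 1) +
    wdg_cyc (F := F) (M 1 1) (N 1 1) (P 1 1) +
    wdg_cyc (F := F) (M 1 2) (N 2 1) (P 1 1) +
    wdg_cyc (F := F) (M 1 0) (N 0 2) (P 2 1) +
    wdg_cyc (F := F) (M 1 1) (N 1 2) (P 2 1) +
    wdg_cyc (F := F) (M 1 2) (N 2 2) (P 2 1) +
    wdg_cyc (F := F) (M 2 0) (N 0 0) (P 0 2) +
    wdg_cyc (F := F) (M 2 1) (N 1 0) (P 0 2) +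
    wdg_cyc (F := F) (M 2 2) (N 2 0) (P 0 2) +
    wdg_cyc (F := F) (M 2 0) (N 0 1) (P 1 2) +
    wdg_cyc (F := F) (M 2 1) (N 1 1) (P 1 2) +
    wdg_cyc (F := F) (M 2 2) (N 2 1) (P 1 2) +
    wdg_cyc (F := F) (M 2 0) (N 0 2) (P 2 2) +
    wdg_cyc (F := F) (M 2 1) (N 1 2) (P 2 2) +
    wdg_cyc (F := F) (M 2 2) (N 2 2) (P 2 2)

theorem kap_om (M N : Matrix (Fin 3) (Fin 3) A) : kap (om F M N) = (M * N - N * M).trace := by
  simp only [om, map_sum, map_add, kap_wdg, Matrix.trace, Matrix.diag, Matrix.sub_apply, Matrix.mul_apply,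
    Fin.sum_univ_three]
  abel

end Om

/-- `gl₃(A) ⊕ B(A)` -/
def GG (F : Type) [Field F] (A : Type) [NonUnitalRing A] [Module F A] : Type :=
  Matrix (Fin 3) (Fin 3) A × BA F A

section GG

variable {F : Type} [Field F] {A : Type} [NonUnitalRing A] [Module F A]

noncomputable instance : AddCommGroup (GG F A) :=
  inferInstanceAs (AddCommGroup (Matrix (Fin 3) (Fin 3) A × BA F A))

noncomputable instance : Module F (GG F A) :=
  inferInstanceAs (Module F (Matrix (Fin 3) (Fin 3) A × BA F A))

namespace GG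

/-- the matrix -/
def pm (x : GG F A) : Matrix (Fin 3) (Fin 3) A := x.1
/-- the component in `B(A)` -/
def pb (x : GG F A) : BA F A := x.2
/-- the pair -/
def mk (M : Matrix (Fin 3) (Fin 3) A) (β : BA F A) : GG F A := (M, β)

@[ext] theorem ext {x y : GG F A} (h1 : pm x = pm y) (h2 : pb x = pb y) : x = y := Prod.ext h1 h2

@[simp] theorem pm_mk (M : Matrix (Fin 3) (Fin 3) A) (β : BA F A) : pm (mk M β) = M := rfl
@[simp] theorem pb_mk (M : Matrix (Fin 3) (Fin 3) A) (β : BA F A) : pb (mk M β) = β := rfl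
@[simp] theorem pm_add (x y : GG F A) : pm (x + y) = pm x + pm y := rfl
@[simp] theorem pb_add (x y : GG F A) : pb (x + y) = pb x + pb y := rfl
@[simp] theorem pm_sub (x y : GG F A) : pm (x - y) = pm x - pm y := rfl
@[simp] theorem pb_sub (x y : GG F A) : pb (x - y) = pb x - pb y := rfl
@[simp] theorem pm_smul (c : F) (x : GG F A) : pm (c • x) = c • pm x := rfl
@[simp] theorem pb_smul (c : F) (x : GG F A) : pb (c • x) = c • pb x := rfl
@[simp] theorem pm_zero : pm (0 : GG F A) = 0 := rfl
@[simp] theorem pb_zero : pb (0 : GG F A) = 0 := rfl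

variable [IsScalarTower F A A] [SMulCommClass F A A] [CharZero F]

noncomputable instance : Bracket (GG F A) (GG F A) where
  bracket x y := mk (pm x * pm y - pm y * pm x) ((3 : F)⁻¹ • om F (pm x) (pm y))

theorem pm_lie (x y : GG F A) : pm ⁅x, y⁆ = pm x * pm y - pm y * pm x := rfl

theorem pb_lie (x y : GG F A) : pb ⁅x, y⁆ = (3 : F)⁻¹ • om F (pm x) (pm y) := rfl

noncomputable instance : LieRing (GG F A) where
  add_lie x y z := by
    ext1
    · simp only [pm_lie, pm_add, add_mul, mul_add]
      abel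
    · simp only [pb_lie, pb_add, pm_add, om_add_left, smul_add]
  lie_add x y z := by
    ext1
    · simp only [pm_lie, pm_add, add_mul, mul_add]
      abel
    · simp only [pb_lie, pb_add, pm_add, om_add_right, smul_add]
  lie_self x := by
    ext1
    · simp only [pm_lie, sub_self, pm_zero]
    · simp only [pb_lie, om_self, smul_zero, pb_zero]
  leibniz_lie x y z := by
    ext1
    · simp only [pm_lie, pm_add, mul_sub, sub_mul, mul_assoc]
      abel
    · simp only [pb_lie, pb_add, pm_lie, om_sub_left, om_sub_right, smul_sub]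
      have h1 := om_cyc (F := F) (pm x) (pm y) (pm z)
      have h2 := om_cyc (F := F) (pm y) (pm x) (pm z)
      have s1 := om_swap (F := F) (pm x) (pm y * pm z)
      have s2 := om_swap (F := F) (pm x) (pm z * pm y)
      have s3 := om_swap (F := F) (pm y) (pm x * pm z)
      have s4 := om_swap (F := F) (pm y) (pm z * pm x)
      rw [s1, s2, s3, s4]
      linear_combination (norm := module) (-(3 : F)⁻¹) • h1 + (3 : F)⁻¹ • h2

noncomputable instance : LieAlgebra F (GG F A) where
  lie_smul c x y := by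
    ext1
    · simp only [pm_lie, pm_smul, mul_smul_comm, smul_mul_assoc, smul_sub]
    · simp only [pb_lie, pm_smul, pb_smul, om_smul_right, smul_comm c]

end GG

end GG

end Pool.Agent.U691.HA
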