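import Pool.Agent.U691.HA.Rep
import Pool.Agent.U691.Shang.Main

/-!
# The character of the exterior algebra and the first homology of `ABG(Alt(V))`, `dim V = 2`
-/

set_option autoImplicit false
set_option linter.unusedSectionVars false
set_option linter.unusedSimpArgs false

namespace Pool.Agent.U691.HA

open Pool.Agent.U691.CE Pool.Agent.U691.CE3 Pool.Agent.U691.Shang

section Brackets

variable {F : Type} [Field F] [CharZero F] {A : Type} [NonUnitalRing A] [Module F A]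
  [IsScalarTower F A A] [SMulCommClass F A A]

theorem E_trace {i j : Fin 3} (h : i ≠ j) : (E F i j).trace = 0 := by
  unfold E
  exact Matrix.trace_single_eq_of_ne _ _ _ h

/-- `E_ij ⊗ p`, `i ≠ j` -/
noncomputable def uu (i j : Fin 3) (h : i ≠ j) (p : A) : G F A :=
  ⟨tensM (E F i j) p, tensM_mem (E_trace h) p⟩

theorem lie_tensM (X Y : Matrix (Fin 3) (Fin 3) F) (p q : A) : ⁅tensM X p, tensM Y q⁆ =
    GG.mk (TM (X * Y) (p * q) - TM (Y * X) (q * p))
      (((3 : F)⁻¹ * (X * Y).trace) • wdg F p q) := by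
  ext1
  · ext i j
    simp only [GG.pm_lie, tensM, TM, GG.pm_mk, Matrix.sub_apply, Matrix.mul_apply,
      Fin.sum_univ_three, smul_mul_smul_comm]
    module
  · simp only [GG.pb_lie, tensM, TM, GG.pm_mk, GG.pb_mk, om, Fin.sum_univ_three, wdg_smul_left,
      wdg_smul_right, Matrix.trace_fin_three, Matrix.mul_apply]
    module

theorem tensM_off (i j k : Fin 3) (h1 : i ≠ k) (h2 : k ≠ j) (h3 : i ≠ j) (p q : A) :
    (⁅(uu i k h1 p : G F A), uu k j h2 q⁆ : G F A).1 = tensM (E F i j) (p * q) := by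
  show ⁅tensM (E F i k) p, tensM (E F k j) q⁆ = _
  rw [lie_tensM, E_mul, E_mul, if_pos rfl, if_neg h3.symm, E_trace h3]
  ext1
  · ext a b
    simp [tensM, TM]
  · simp [tensM]

theorem cc_eq (i j : Fin 3) (h : i ≠ j) (p q : A) :
    (⁅(uu i j h p : G F A), uu j i h.symm q⁆ : G F A).1 =
      GG.mk (TM (E F i i) (p * q) - TM (E F j j) (q * p)) ((3 : F)⁻¹ • wdg F p q) := by
  show ⁅tensM (E F i j) p, tensM (E F j i) q⁆ = _
  rw [lie_tensM, E_mul, E_mul, if_pos rfl, if_pos rfl]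
  have h1 : (E F i i).trace = 1 := by
    unfold E
    rw [Matrix.trace_single_eq_same]
  rw [h1, mul_one]

theorem H_eq (i j k : Fin 3) (h1 : i ≠ k) (h2 : k ≠ j) (p q : A) :
    (⁅(uu i k h1 p : G F A), uu k i h1.symm q⁆ + ⁅(uu k j h2 q : G F A), uu j k h2.symm p⁆ :
      G F A).1 = tensM (E F i i - E F j j) (p * q) := by
  show (⁅(uu i k h1 p : G F A), uu k i h1.symm q⁆ : G F A).1 +
    (⁅(uu k j h2 q : G F A), uu j k h2.symm p⁆ : G F A).1 = _
  rw [cc_eq, cc_eq]
  ext1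
  · ext a b
    simp only [tensM, TM, GG.pm_mk, GG.pm_add, Matrix.sub_apply, Matrix.add_apply]
    module
  · simp only [tensM, GG.pb_mk, GG.pb_add]
    rw [wdg_swap q p]
    module

theorem W_eq (p q : A) :
    (⁅(uu 0 1 (by decide) p : G F A), uu 1 0 (by decide) q⁆ +
      ⁅(uu 1 2 (by decide) p : G F A), uu 2 1 (by decide) q⁆ +
      ⁅(uu 2 0 (by decide) p : G F A), uu 0 2 (by decide) q⁆ : G F A).1 = WM (wdg F p q) := by
  show (⁅(uu 0 1 (by decide) p : G F A), uu 1 0 (by decide) q⁆ : G F A).1 +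
    (⁅(uu 1 2 (by decide) p : G F A), uu 2 1 (by decide) q⁆ : G F A).1 +
    (⁅(uu 2 0 (by decide) p : G F A), uu 0 2 (by decide) q⁆ : G F A).1 = _
  rw [cc_eq, cc_eq, cc_eq]
  ext1
  · ext a b
    fin_cases a <;> fin_cases b <;> simp [WM, TM, E, Matrix.single, kap_wdg] <;> abel
  · simp only [WM, GG.pb_mk, GG.pb_add]
    module

end Brackets

variable (F : Type) [Field F] [CharZero F]

/-- the span of the brackets -/
noncomputable def Br : Submodule F (G F (FreeAlt F 2)) :=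
  Submodule.span F {x | ∃ y z : G F (FreeAlt F 2), x = ⁅y, z⁆}

theorem lie_Br (y z : G F (FreeAlt F 2)) : ⁅y, z⁆ ∈ Br F := Submodule.subset_span ⟨y, z, rfl⟩

theorem bT_Br (j : IT F) (hj : 2 ≤ dT F j) : bT F j ∈ Br F := by
  rcases j with ⟨i, w⟩ | j
  · have h : 2 ≤ w.length := by
      simp only [dT, Sum.elim_inl] at hj
      omega
    obtain ⟨u, v, rfl⟩ := exists_mul h
    have key : ∀ x ∈ Br F, x.1 = tensM (S F i) (bA F u * bA F v) →
        bT F (Sum.inl ⟨i, u * v⟩) ∈ Br F := by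
      intro x hx hx2
      have : bT F (Sum.inl ⟨i, u * v⟩) = x := by
        apply Subtype.ext
        rw [bT_1, hx2, bA_mul]
      rw [this]
      exact hx
    fin_cases i
    · exact key _ (lie_Br F _ _) (tensM_off 0 1 2 (by decide) (by decide) (by decide) _ _)
    · exact key _ (lie_Br F _ _) (tensM_off 1 2 0 (by decide) (by decide) (by decide) _ _)
    · exact key _ (lie_Br F _ _) (tensM_off 0 2 1 (by decide) (by decide) (by decide) _ _)
    · exact key _ (lie_Br F _ _) (tensM_off 1 0 2 (by decide) (by decide) (by decide) _ _)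
    · exact key _ (lie_Br F _ _) (tensM_off 2 1 0 (by decide) (by decide) (by decide) _ _)
    · exact key _ (lie_Br F _ _) (tensM_off 2 0 1 (by decide) (by decide) (by decide) _ _)
    · exact key _ (Submodule.add_mem _ (lie_Br F _ _) (lie_Br F _ _))
        (H_eq 0 1 2 (by decide) (by decide) _ _)
    · exact key _ (Submodule.add_mem _ (lie_Br F _ _) (lie_Br F _ _))
        (H_eq 1 2 0 (by decide) (by decide) _ _)
  · have h1 := W_eq (F := F) (bA F (aB F j).1) (bA F (aB F j).2)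
    have h2 : bT F (Sum.inr j) = ⁅(uu 0 1 (by decide) (bA F (aB F j).1) : G F (FreeAlt F 2)),
        uu 1 0 (by decide) (bA F (aB F j).2)⁆ +
        ⁅(uu 1 2 (by decide) (bA F (aB F j).1) : G F (FreeAlt F 2)),
        uu 2 1 (by decide) (bA F (aB F j).2)⁆ +
        ⁅(uu 2 0 (by decide) (bA F (aB F j).1) : G F (FreeAlt F 2)),
        uu 0 2 (by decide) (bA F (aB F j).2)⁆ := by
      apply Subtype.ext
      rw [bT_2, h1]
    rw [h2]
    exact Submodule.add_mem _ (Submodule.add_mem _ (lie_Br F _ _) (lie_Br F _ _)) (lie_Br F _ _)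

/-- the words of length at most `17` -/
noncomputable def SW : Finset Wd := (finite_len 17).toFinset

theorem mem_SW {w : Wd} : w ∈ SW ↔ w.length ≤ 17 := by
  unfold SW
  rw [Set.Finite.mem_toFinset]
  rfl

/-- the basis elements of `B(A)` of degree at most `17` -/
noncomputable def SB : Finset (IB F) := (finite_aB F 17).toFinset

theorem mem_SB {j : IB F} : j ∈ SB F ↔ (aB F j).1.length + (aB F j).2.length ≤ 17 := by
  unfold SB
  rw [Set.Finite.mem_toFinset]
  rfl

theorem In_eq : (XT F).In 17 =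
    ((Finset.univ : Finset (Fin 8)).sigma fun _ => SW).disjSum (SB F) := by
  ext j
  rw [Dat3.mem_In]
  rcases j with ⟨i, w⟩ | j
  · have := mem_SW (w := w)
    simp only [Finset.inl_mem_disjSum, Finset.mem_sigma, Finset.mem_univ, true_and, this]
    show ((w.length : ℕ) : ℤ) ≤ 17 ↔ _
    omega
  · have := mem_SB F (j := j)
    simp only [Finset.inr_mem_disjSum, this]
    show (((aB F j).1.length : ℕ) : ℤ) + (((aB F j).2.length : ℕ) : ℤ) ≤ 17 ↔ _
    omega

theorem prod_SW (α : ℤ × ℤ) : ∏ w ∈ SW, (1 - 3 ^ w.length * et α) = FF α := by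
  rw [← prod_eq_FF, ← Finset.prod_fiberwise_of_maps_to (g := fun w : Wd => w.length)
    (t := Finset.Icc 1 17)]
  · refine Finset.prod_congr rfl fun m hm => ?_
    rw [Finset.mem_Icc] at hm
    rw [Finset.prod_congr rfl (g := fun _ => 1 - 3 ^ m * et α), Finset.prod_const]
    · congr 1
      rw [← card_len hm.1]
      symm
      apply Nat.subtype_card
      intro w
      rw [Finset.mem_filter, mem_SW]
      omega
    · intro w hw
      rw [Finset.mem_filter] at hw
      rw [hw.2]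
  · intro w hw
    rw [mem_SW] at hw
    rw [Finset.mem_Icc]
    exact ⟨len_pos w, hw⟩

theorem Phi_eq : ∃ β : Z18, (XT F).Phi = β • Psi := by
  unfold Dat3.Phi
  rw [In_eq, Finset.prod_disjSum, Finset.prod_sigma]
  have h1 : ∀ i : Fin 8, ∏ w ∈ SW, (1 - 3 ^ (XT F).dg (Sum.inl ⟨i, w⟩) *
      et ((XT F).wa (Sum.inl ⟨i, w⟩), (XT F).wb (Sum.inl ⟨i, w⟩))) = 
      ∏ w ∈ SW, (1 - 3 ^ w.length * et (wA8 i, wB8 i)) := fun i => rfl
  simp only [h1, Fin.prod_univ_eight, prod_SW]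
  obtain ⟨β1, h2⟩ := scalar_prod SW (fun w => 1 - 3 ^ w.length * et (0, 0))
    (fun w _ => ⟨1 - 3 ^ w.length, by
      have : et (0, 0) = 1 := rfl
      rw [this, mul_one, map_sub, map_one, map_pow, map_ofNat]⟩)
  rw [prod_SW] at h2
  obtain ⟨β2, h3⟩ := scalar_prod (SB F)
    (fun j => 1 - 3 ^ (XT F).dg (Sum.inr j) *
      et ((XT F).wa (Sum.inr j), (XT F).wb (Sum.inr j)))
    (fun j _ => ⟨1 - 3 ^ (XT F).dg (Sum.inr j), by
      have : et ((XT F).wa (Sum.inr j), (XT F).wb (Sum.inr j)) = 1 := rfl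
      rw [this, mul_one, map_sub, map_one, map_pow, map_ofNat]⟩)
  rw [h3]
  have w0 : FF (wA8 0, wB8 0) = FF (1, 0) := rfl
  have w1 : FF (wA8 1, wB8 1) = FF (0, 1) := rfl
  have w2 : FF (wA8 2, wB8 2) = FF (1, 1) := rfl
  have w3 : FF (wA8 3, wB8 3) = FF (-(1, 0)) := rfl
  have w4 : FF (wA8 4, wB8 4) = FF (-(0, 1)) := rfl
  have w5 : FF (wA8 5, wB8 5) = FF (-(1, 1)) := rfl
  have w6 : FF (wA8 6, wB8 6) = algebraMap Z18 T18 β1 := h2
  have w7 : FF (wA8 7, wB8 7) = algebraMap Z18 T18 β1 := h2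
  rw [w0, w1, w2, w3, w4, w5, w6, w7]
  refine ⟨β1 * β1 * β2, ?_⟩
  unfold Psi
  rw [Algebra.smul_def, map_mul, map_mul]
  ring

theorem c1_eq (a b : ℤ) : (XT F).c1 a b =
    Nat.card {i : Fin 8 // wA8 i = a ∧ wB8 i = b} * 2 := by
  have h2 : Nat.card {w : Wd // w.length = 1} = 2 := card_len le_rfl
  have h3 : Nat.card ({i : Fin 8 // wA8 i = a ∧ wB8 i = b} × {w : Wd // w.length = 1}) =
      Nat.card {i : Fin 8 // wA8 i = a ∧ wB8 i = b} * 2 := by
    rw [Nat.card_prod, h2]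
  rw [← h3]
  symm
  unfold Dat3.c1
  apply Nat.card_eq_of_bijective
    (fun p : {i : Fin 8 // wA8 i = a ∧ wB8 i = b} × {w : Wd // w.length = 1} =>
      (⟨Sum.inl ⟨p.1.1, p.2.1⟩, by
        show ((p.2.1.length : ℕ) : ℤ) = 1
        rw [p.2.2]; rfl, p.1.2⟩ :
        {j : IT F // (XT F).deg j = 1 ∧ (XT F).wa j = a ∧ (XT F).wb j = b}))
  constructor
  · rintro ⟨⟨i, hi⟩, ⟨w, hw⟩⟩ ⟨⟨i', hi'⟩, ⟨w', hw'⟩⟩ h
    have h1 := Sum.inl.inj (congrArg Subtype.val h)
    rw [Sigma.mk.injEq] at h1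
    obtain ⟨rfl, h4⟩ := h1
    obtain rfl := eq_of_heq h4
    rfl
  · rintro ⟨j, h1, h2⟩
    rcases j with ⟨i, w⟩ | j
    · have h3 : ((w.length : ℕ) : ℤ) = 1 := h1
      exact ⟨⟨⟨i, h2⟩, ⟨w, by exact_mod_cast h3⟩⟩, rfl⟩
    · have h3 : (((aB F j).1.length : ℕ) : ℤ) + (((aB F j).2.length : ℕ) : ℤ) = 1 := h1
      have h4 := len_pos (aB F j).1
      have h5 := len_pos (aB F j).2
      omega

end Pool.Agent.U691.HA
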