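import Pool.Agent.U691.HA.Lie
import Pool.Agent.U691.HA.Free
import Pool.Agent.U691.CE.Basic

/-!
# The Allison–Benkart–Gao algebra by its presentation, and submodules of its homology
-/

set_option autoImplicit false
set_option linter.unusedSectionVars false

namespace Pool.Agent.U691.HA

open scoped TensorProduct
open Pool.Agent.U691.CE

section

variable (F : Type) [Field F] [CharZero F] (A : Type) [NonUnitalNonAssocRing A] [Module F A]
  (g : Type) [LieRing g] [LieAlgebra F g]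

variable {A} in
/-- `D_{p,q}(r)` for `D_{p,q} = [L_p, L_q] + [R_p, R_q] + [L_p, R_q]` -/
def Dpq (p q r : A) : A :=
  (p * (q * r) - q * (p * r)) + ((r * q) * p - (r * p) * q) + (p * (r * q) - (p * r) * q)

variable {F} in
theorem sym_mem (X Y : LieAlgebra.SpecialLinear.sl (Fin 3) F) :
    (2 : F)⁻¹ • (X.1 * Y.1 + Y.1 * X.1) - ((3 : F)⁻¹ * (X.1 * Y.1).trace) • 1 ∈
      LieAlgebra.SpecialLinear.sl (Fin 3) F := by
  show Matrix.trace ((2 : F)⁻¹ • (X.1 * Y.1 + Y.1 * X.1) -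
    ((3 : F)⁻¹ * (X.1 * Y.1).trace) • (1 : Matrix (Fin 3) (Fin 3) F)) = 0
  rw [Matrix.trace_sub, Matrix.trace_smul, Matrix.trace_add, Matrix.trace_smul, Matrix.trace_one,
    Matrix.trace_mul_comm Y.1 X.1]
  simp only [Fintype.card_fin, smul_eq_mul]
  push_cast
  ring

variable {F} in
/-- `{X, Y} = (XY + YX) / 2 - tr(XY) I / 3` -/
def sym (X Y : LieAlgebra.SpecialLinear.sl (Fin 3) F) : LieAlgebra.SpecialLinear.sl (Fin 3) F :=
  ⟨(2 : F)⁻¹ • (X.1 * Y.1 + Y.1 * X.1) - ((3 : F)⁻¹ * (X.1 * Y.1).trace) • 1, sym_mem X Y⟩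

/-- The Lie algebra `g` is the Allison–Benkart–Gao algebra `ABG(A) = sl₃ ⊗ A ⊕ B(A)` of the
alternative algebra `A`: the elements `X ⊗ p` are `t X p`, the elements `p ∧ q` of `B(A)` are
`w p q`, and `r X` is the action of `X` (from `sl₃`) on `g` through the factor `sl₃` of
`sl₃ ⊗ A`.

The fields `tt`, `wt`, `ww` are the formulas for the bracket.  The field `ker` says that `g`
contains `sl₃ ⊗ A ⊕ B(A)`, where `B(A)` is the quotient of `A ⊗ A` by the span of all `p ⊗ p`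
and all `pq ⊗ r + qr ⊗ p + rp ⊗ q`, and `top` that this is all of `g`. -/
structure IsABG (t : LieAlgebra.SpecialLinear.sl (Fin 3) F →ₗ[F] A →ₗ[F] g)
    (w : A →ₗ[F] A →ₗ[F] g)
    (r : LieAlgebra.SpecialLinear.sl (Fin 3) F → g →ₗ[F] g) : Prop where
  tt : ∀ X Y p q, ⁅t X p, t Y q⁆ = t ⁅X, Y⁆ ((2 : F)⁻¹ • (p * q + q * p)) +
    t (sym X Y) (p * q - q * p) + ((3 : F)⁻¹ * (X.1 * Y.1).trace) • w p q
  wt : ∀ p q X x, ⁅w p q, t X x⁆ = t X (Dpq p q x)
  ww : ∀ p q x y, ⁅w p q, w x y⁆ = w (Dpq p q x) y + w x (Dpq p q y)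
  ker : ∀ (a : LieAlgebra.SpecialLinear.sl (Fin 3) F ⊗[F] A) (b : A ⊗[F] A),
    TensorProduct.lift t a + TensorProduct.lift w b = 0 ↔
      a = 0 ∧ b ∈ Submodule.span F (relB F A)
  top : ∀ x : g, ∃ (a : LieAlgebra.SpecialLinear.sl (Fin 3) F ⊗[F] A) (b : A ⊗[F] A),
    x = TensorProduct.lift t a + TensorProduct.lift w b
  rt : ∀ X Y p, r X (t Y p) = t ⁅X, Y⁆ p
  rw : ∀ X p q, r X (w p q) = 0

variable (r : LieAlgebra.SpecialLinear.sl (Fin 3) F → g →ₗ[F] g)

omit [CharZero F] in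
/-- For the action `r` of `sl₃` on `g` by derivations: the `sl₃`-module `H_k(g, F) = Z_k / B_k`
contains a submodule isomorphic to the trivial module, that is a nonzero class which is
annihilated by `sl₃`. -/
def TrivialIn (k : ℕ) : Prop :=
  ∃ z ∈ Zk F g k, z ∉ Bk F g k ∧ ∀ X, Th (r X) z ∈ Bk F g k

omit [CharZero F] in
/-- For the action `r` of `sl₃` on `g` by derivations: the `sl₃`-module `H_k(g, F) = Z_k / B_k`
contains a submodule isomorphic to the adjoint module `sl₃`, that is there is an injective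
equivariant linear map from `sl₃` to `Z_k / B_k`, given by a linear map from `sl₃` to `Z_k`. -/
def AdjointIn (k : ℕ) : Prop :=
  ∃ φ : LieAlgebra.SpecialLinear.sl (Fin 3) F →ₗ[F] ExteriorAlgebra F g,
    (∀ X, φ X ∈ Zk F g k) ∧ (∀ X, φ X ∈ Bk F g k → X = 0) ∧
    ∀ X Y, φ ⁅X, Y⁆ - Th (r X) (φ Y) ∈ Bk F g k

end

end Pool.Agent.U691.HA
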