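import Pool.Agent.U691.HA.DatA
import Pool.Agent.U691.HA.State

/-!
# The Lie algebra `G F A` satisfies the presentation
-/

set_option autoImplicit false
set_option linter.unusedSectionVars false
set_option linter.unusedSimpArgs false

namespace Pool.Agent.U691.HA

open scoped TensorProduct
open Pool.Agent.U691.CE

variable (F : Type) [Field F] [CharZero F] (A : Type) [NonUnitalRing A] [Module F A]
  [IsScalarTower F A A] [SMulCommClass F A A]

/-- `X ⊗ p` as a bilinear map -/
noncomputable def tT : LieAlgebra.SpecialLinear.sl (Fin 3) F →ₗ[F] A →ₗ[F] G F A :=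
  LinearMap.mk₂ F (fun X p => ⟨tensM X.1 p, tensM_mem X.2 p⟩)
    (by
      intro X Y p
      apply Subtype.ext
      exact tensM_add F X.1 Y.1 p)
    (by
      intro c X p
      apply Subtype.ext
      exact tensM_smul c X.1 p)
    (by
      intro X p q
      apply Subtype.ext
      show tensM X.1 (p + q) = tensM X.1 p + tensM X.1 q
      ext1
      · ext i j
        simp only [tensM, TM, GG.pm_mk, GG.pm_add, Matrix.add_apply, smul_add]
      · simp [tensM])
    (by
      intro c X p
      apply Subtype.ext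
      show tensM X.1 (c • p) = c • tensM X.1 p
      ext1
      · ext i j
        simp only [tensM, TM, GG.pm_mk, GG.pm_smul, Matrix.smul_apply]
        rw [smul_comm]
      · simp [tensM])

theorem tT_val (X : LieAlgebra.SpecialLinear.sl (Fin 3) F) (p : A) :
    (tT F A X p).1 = tensM X.1 p := rfl

/-- `β` as an element of `ABG(A)` -/
noncomputable def WB : BA F A →ₗ[F] G F A where
  toFun β := ⟨WM β, WM_mem β⟩
  map_add' x y := by
    apply Subtype.ext
    show WM (x + y) = WM x + WM y
    ext1
    · ext i j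
      simp only [WM, GG.pm_mk, GG.pm_add, Matrix.add_apply, map_add, Matrix.diagonal_apply]
      split_ifs <;> simp
    · simp [WM]
  map_smul' c x := by
    apply Subtype.ext
    show WM (c • x) = c • WM x
    ext1
    · ext i j
      simp only [WM, GG.pm_mk, GG.pm_smul, Matrix.smul_apply, map_smul, Matrix.diagonal_apply]
      split_ifs <;> simp
    · simp [WM]

theorem WB_val (β : BA F A) : (WB F A β).1 = WM β := rfl

/-- `p ∧ q` as a bilinear map -/
noncomputable def wT : A →ₗ[F] A →ₗ[F] G F A :=
  LinearMap.mk₂ F (fun p q => WB F A (wdg F p q))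
    (by intro p p' q; rw [wdg_add_left, map_add])
    (by intro c p q; rw [wdg_smul_left, map_smul])
    (by intro p q q'; rw [wdg_add_right, map_add])
    (by intro c p q; rw [wdg_smul_right, map_smul])

theorem wT_apply (p q : A) : wT F A p q = WB F A (wdg F p q) := rfl

/-- the action of `sl₃` -/
noncomputable def slAct (X : LieAlgebra.SpecialLinear.sl (Fin 3) F) : G F A →ₗ[F] G F A :=
  act X.1

theorem lift_w (b : A ⊗[F] A) : TensorProduct.lift (wT F A) b =
    WB F A ((Submodule.span F (relB F A)).mkQ b) := by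
  induction b using TensorProduct.induction_on with
  | zero => rw [map_zero, map_zero, map_zero]
  | tmul x y => rw [TensorProduct.lift.tmul]; rfl
  | add x y hx hy => rw [map_add, hx, hy, map_add, map_add]

theorem pb_lift (a : LieAlgebra.SpecialLinear.sl (Fin 3) F ⊗[F] A) :
    GG.pb (TensorProduct.lift (tT F A) a).1 = 0 := by
  induction a using TensorProduct.induction_on with
  | zero => rw [map_zero]; rfl
  | tmul X u => rw [TensorProduct.lift.tmul]; rfl
  | add x y hx hy =>
    rw [map_add]
    show GG.pb ((TensorProduct.lift (tT F A) x).1 + (TensorProduct.lift (tT F A) y).1) = 0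
    rw [GG.pb_add, hx, hy, add_zero]

/-- the basis of `sl₃` -/
noncomputable def slS (j : Fin 8) : LieAlgebra.SpecialLinear.sl (Fin 3) F :=
  ⟨S F j, S_trace j⟩

/-- the coordinates of a matrix of trace zero -/
def co (X : Matrix (Fin 3) (Fin 3) F) : Fin 8 → F :=
  ![X 0 1, X 1 2, X 0 2, X 1 0, X 2 1, X 2 0, X 0 0, -X 2 2]

theorem sl_22 (X : LieAlgebra.SpecialLinear.sl (Fin 3) F) : X.1 2 2 = - X.1 0 0 - X.1 1 1 := by
  have h1 : Matrix.trace X.1 = 0 := X.2
  rw [Matrix.trace_fin_three] at h1
  linear_combination h1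

theorem sl_eq (X : LieAlgebra.SpecialLinear.sl (Fin 3) F) :
    X = ∑ j, co F X.1 j • slS F j := by
  apply Subtype.ext
  have h : ((∑ j, co F X.1 j • slS F j : LieAlgebra.SpecialLinear.sl (Fin 3) F) :
      Matrix (Fin 3) (Fin 3) F) = ∑ j, co F X.1 j • S F j := by
    simp only [Fin.sum_univ_eight]
    rfl
  have h2 := sl_22 F X
  rw [h]
  simp only [Fin.sum_univ_eight]
  ext i j
  fin_cases i <;> fin_cases j <;> simp [co, S, E, Matrix.single, h2]
  ring

/-- the inverse on the part `sl₃ ⊗ A` -/
noncomputable def sT : G F A →ₗ[F] LieAlgebra.SpecialLinear.sl (Fin 3) F ⊗[F] A where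
  toFun x := ∑ j, slS F j ⊗ₜ (Ps.symm x).1 j
  map_add' x y := by
    simp only [map_add, Prod.fst_add, Pi.add_apply, TensorProduct.tmul_add,
      Finset.sum_add_distrib]
  map_smul' c x := by
    simp only [map_smul, Prod.smul_fst, Pi.smul_apply, TensorProduct.tmul_smul, Finset.smul_sum,
      RingHom.id_apply]

theorem Ps_symm_tT (X : LieAlgebra.SpecialLinear.sl (Fin 3) F) (p : A) (j : Fin 8) :
    (Ps.symm (tT F A X p)).1 j = co F X.1 j • p := by
  have h : (Ps.symm (tT F A X p)).1 = ![X.1 0 1 • p, X.1 1 2 • p, X.1 0 2 • p, X.1 1 0 • p,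
    X.1 2 1 • p, X.1 2 0 • p, X.1 0 0 • p - kap (0 : BA F A), kap (0 : BA F A) - X.1 2 2 • p] := rfl
  rw [h, map_zero, sub_zero, zero_sub]
  fin_cases j <;> simp [co]

theorem sT_lift (a : LieAlgebra.SpecialLinear.sl (Fin 3) F ⊗[F] A) :
    sT F A (TensorProduct.lift (tT F A) a) = a := by
  induction a using TensorProduct.induction_on with
  | zero => rw [map_zero, map_zero]
  | tmul X u =>
    rw [TensorProduct.lift.tmul]
    show ∑ j, slS F j ⊗ₜ (Ps.symm (tT F A X u)).1 j = _
    simp only [Ps_symm_tT, ← TensorProduct.smul_tmul]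
    rw [← TensorProduct.sum_tmul, ← sl_eq]
  | add x y hx hy => rw [map_add, map_add, hx, hy]

theorem Ps_eq (y : Fin 8 → A) (β : BA F A) :
    Ps (y, β) = ∑ j, tT F A (slS F j) (y j) + WB F A β := by
  have h1 : (y, β) = ∑ j, ((Pi.single j (y j) : Fin 8 → A), (0 : BA F A)) + (0, β) := by
    refine Prod.ext ?_ ?_
    · rw [Prod.fst_add, Prod.fst_sum, add_zero]
      exact (Finset.univ_sum_single y).symm
    · rw [Prod.snd_add, Prod.snd_sum, Finset.sum_const_zero, zero_add]
  rw [h1, map_add, map_sum]
  congr 1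
  · refine Finset.sum_congr rfl fun j _ => ?_
    apply Subtype.ext
    rw [Ps_single]
    rfl
  · apply Subtype.ext
    rw [Ps_right]
    rfl

theorem Dpq_eq (p q r : A) : Dpq p q r = (p * q - q * p) * r - r * (p * q - q * p) := by
  unfold Dpq
  simp only [sub_mul, mul_sub, mul_assoc]
  abel

/-- the Lie algebra `G F A` is the Allison–Benkart–Gao algebra of `A` -/
theorem isABG : IsABG F A (G F A) (tT F A) (wT F A) (slAct F A) where
  tt X Y p q := by
    apply Subtype.ext
    show ⁅tensM X.1 p, tensM Y.1 q⁆ = tensM (⁅X, Y⁆ : LieAlgebra.SpecialLinear.sl (Fin 3) F).1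
      ((2 : F)⁻¹ • (p * q + q * p)) + tensM (sym X Y).1 (p * q - q * p) +
      ((3 : F)⁻¹ * (X.1 * Y.1).trace) • WM (wdg F p q)
    rw [LieAlgebra.SpecialLinear.sl_bracket]
    ext1
    · ext i j
      simp only [GG.pm_lie, tensM, TM, GG.pm_mk, GG.pm_add, GG.pm_smul, WM, sym, Matrix.sub_apply,
        Matrix.add_apply, Matrix.smul_apply, Matrix.mul_apply, Fin.sum_univ_three,
        Matrix.diagonal_apply, Matrix.one_apply, kap_wdg, smul_mul_smul_comm, smul_eq_mul]
      split_ifs
      · module
      · module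
    · simp only [GG.pb_lie, tensM, TM, GG.pm_mk, GG.pb_mk, GG.pb_add, GG.pb_smul, WM, om,
        Fin.sum_univ_three, wdg_smul_left, wdg_smul_right, Matrix.trace_fin_three,
        Matrix.mul_apply]
      module
  wt p q X x := by
    apply Subtype.ext
    show ⁅WM (wdg F p q), tensM X.1 x⁆ = tensM X.1 (Dpq p q x)
    rw [Dpq_eq]
    ext1
    · ext i j
      simp only [GG.pm_lie, tensM, TM, GG.pm_mk, WM, Matrix.sub_apply, Matrix.diagonal_mul,
        Matrix.mul_diagonal, kap_wdg, mul_smul_comm, smul_mul_assoc, smul_sub]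
    · have h := sl_22 F X
      simp only [GG.pb_lie, tensM, TM, GG.pm_mk, GG.pb_mk, WM, om, Fin.sum_univ_three,
        wdg_smul_left, wdg_smul_right, Matrix.diagonal_apply, Fin.reduceEq, if_true, if_false,
        wdg_zero_left, smul_zero, h]
      module
  ww p q x y := by
    apply Subtype.ext
    show ⁅WM (wdg F p q), WM (wdg F x y)⁆ = WM (wdg F (Dpq p q x) y) + WM (wdg F x (Dpq p q y))
    rw [Dpq_eq, Dpq_eq]
    ext1
    · ext i j
      simp only [GG.pm_lie, GG.pm_mk, GG.pm_add, WM, Matrix.sub_apply, Matrix.add_apply,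
        Matrix.diagonal_mul, Matrix.diagonal_apply, kap_wdg]
      split_ifs
      · simp only [sub_mul, mul_sub, mul_assoc]
        abel
      · simp
    · simp only [GG.pb_lie, GG.pm_mk, GG.pb_mk, GG.pb_add, WM, om, Fin.sum_univ_three,
        Matrix.diagonal_apply, Fin.reduceEq, if_true, if_false, wdg_zero_left, kap_wdg]
      set c := p * q - q * p
      have h1 := wdg_cyc (F := F) c x y
      have h2 := wdg_cyc (F := F) x c y
      have h3 := wdg_swap (F := F) (x * y) c
      have h4 := wdg_swap (F := F) (y * x) c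
      have h5 := wdg_swap (F := F) (c * y) x
      have h6 := wdg_swap (F := F) (y * c) x
      simp only [wdg_sub_left, wdg_sub_right]
      rw [h3, h6] at h1
      rw [h5, h4] at h2
      linear_combination (norm := module) h2 - h1
  ker a b := by
    constructor
    · intro h
      rw [lift_w] at h
      have h1 : GG.pb ((TensorProduct.lift (tT F A) a).1 +
          (WB F A ((Submodule.span F (relB F A)).mkQ b)).1) = 0 := by
        have h0 := congrArg (fun x : G F A => GG.pb x.1) h
        exact h0
      rw [GG.pb_add, pb_lift, zero_add, WB_val] at h1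
      have h2 : (Submodule.span F (relB F A)).mkQ b = 0 := h1
      have h3 := h2
      rw [Submodule.mkQ_apply, Submodule.Quotient.mk_eq_zero] at h3
      refine ⟨?_, h3⟩
      rw [h2, map_zero, add_zero] at h
      rw [← sT_lift F A a, h, map_zero]
    · rintro ⟨rfl, h⟩
      rw [map_zero, zero_add, lift_w, Submodule.mkQ_apply, (Submodule.Quotient.mk_eq_zero _).2 h,
        map_zero]
  top x := by
    obtain ⟨b, hb⟩ := Submodule.mkQ_surjective (Submodule.span F (relB F A)) (GG.pb x.1)
    refine ⟨sT F A x, b, ?_⟩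
    rw [lift_w, hb]
    show x = TensorProduct.lift (tT F A) (∑ j, slS F j ⊗ₜ (Ps.symm x).1 j) + _
    rw [map_sum]
    simp only [TensorProduct.lift.tmul]
    have h1 := Ps_eq F A (Ps.symm x).1 (GG.pb x.1)
    rw [← h1]
    have h2 : ((Ps.symm x).1, GG.pb x.1) = Ps.symm x := rfl
    rw [h2, LinearEquiv.apply_symm_apply]
  rt X Y p := by
    apply Subtype.ext
    show actG X.1 (tensM Y.1 p) = tensM (⁅X, Y⁆ : LieAlgebra.SpecialLinear.sl (Fin 3) F).1 p
    rw [actG_tensM, LieAlgebra.SpecialLinear.sl_bracket]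
  rw X p q := by
    apply Subtype.ext
    exact actG_WM X.1 (wdg F p q)

end Pool.Agent.U691.HA
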