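import Pool.Agent.U691.HA.Pres
import Pool.Agent.U691.CE3.Hyp3

/-!
# Trivial and adjoint submodules of the homology
-/

set_option autoImplicit false
set_option linter.unusedSectionVars false
set_option linter.unusedSimpArgs false

namespace Pool.Agent.U691.HA

open Pool.Agent.U691.CE Pool.Agent.U691.CE3

section Adj

variable {F : Type} [Field F] [CharZero F] {M : Type} [AddCommGroup M] [Module F M] {R : Sl3 F M}
  {v : M} (H : R.IsAdj v)

include H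

/-! The table of the action of `sl₃` on the vectors `v`, `f₁v`, `f₂v`, `f₂f₁v`, `f₃v`, `f₃f₁v`,
`f₃f₂v`, `f₃²v`. -/

theorem t1a : R.e1 (R.f1 v) = v := by
  rw [R.e1f1, H.e1, map_zero, H.A, H.B]; module
theorem t1b : R.e1 (R.f2 v) = 0 := by
  rw [R.e1f2, H.e1, map_zero]
theorem t1c : R.e1 (R.f2 (R.f1 v)) = R.f2 v := by
  rw [R.e1f2, t1a H]
theorem t1g : R.e1 (R.f3 v) = - R.f2 v := by
  rw [R.e1f3, H.e1, map_zero, zero_sub]
theorem t1p : R.e1 (R.f3 (R.f1 v)) = R.f3 v - R.f2 (R.f1 v) := by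
  rw [R.e1f3, t1a H]
theorem t1q : R.e1 (R.f3 (R.f2 v)) = 0 := by
  rw [R.e1f3, t1b H, map_zero, H.f22, sub_self]
theorem t1r : R.e1 (R.f3 (R.f3 v)) = (-2 : F) • R.f3 (R.f2 v) := by
  rw [R.e1f3, t1g H, map_neg, R.f2f3]; module
theorem t2a : R.e2 (R.f1 v) = 0 := by
  rw [R.e2f1, H.e2, map_zero]
theorem t2b : R.e2 (R.f2 v) = v := by
  rw [R.e2f2, H.e2, map_zero, H.A, H.B]; module
theorem t2c : R.e2 (R.f2 (R.f1 v)) = (2 : F) • R.f1 v := by
  rw [R.e2f2, t2a H, map_zero, R.Bf1, R.Af1, H.A, H.B]; module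
theorem t2g : R.e2 (R.f3 v) = R.f1 v := by
  rw [R.e2f3, H.e2, map_zero, zero_add]
theorem t2p : R.e2 (R.f3 (R.f1 v)) = 0 := by
  rw [R.e2f3, t2a H, map_zero, H.f11, add_zero]
theorem t2q : R.e2 (R.f3 (R.f2 v)) = R.f2 (R.f1 v) := by
  rw [R.e2f3, t2b H, R.f1f2]; module
theorem t2r : R.e2 (R.f3 (R.f3 v)) = (2 : F) • R.f3 (R.f1 v) := by
  rw [R.e2f3, t2g H, R.f1f3]; module
theorem t3a : R.e3 (R.f1 v) = 0 := by
  rw [R.e3f1, H.e3, map_zero, H.e2, sub_zero]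
theorem t3b : R.e3 (R.f2 v) = 0 := by
  rw [R.e3f2, H.e3, map_zero, H.e1, add_zero]
theorem t3c : R.e3 (R.f2 (R.f1 v)) = v := by
  rw [R.e3f2, t3a H, map_zero, t1a H, zero_add]
theorem t3g : R.e3 (R.f3 v) = (2 : F) • v := by
  rw [R.e3f3, H.e3, map_zero, H.A, H.B]; module
theorem t3p : R.e3 (R.f3 (R.f1 v)) = R.f1 v := by
  rw [R.e3f3, t3a H, map_zero, R.Af1, R.Bf1, H.A, H.B]; module
theorem t3q : R.e3 (R.f3 (R.f2 v)) = R.f2 v := by
  rw [R.e3f3, t3b H, map_zero, R.Af2, R.Bf2, H.A, H.B]; module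
theorem t3r : R.e3 (R.f3 (R.f3 v)) = (2 : F) • R.f3 v := by
  rw [R.e3f3, t3g H, map_smul, R.Af3, R.Bf3, H.A, H.B]; module
theorem s1b : R.f1 (R.f2 v) = R.f2 (R.f1 v) - R.f3 v := R.f1f2 v
theorem s1c : R.f1 (R.f2 (R.f1 v)) = - R.f3 (R.f1 v) := by
  rw [R.f1f2, H.f11, map_zero, zero_sub]
theorem s1g : R.f1 (R.f3 v) = R.f3 (R.f1 v) := R.f1f3 v
theorem s1p : R.f1 (R.f3 (R.f1 v)) = 0 := by
  rw [R.f1f3, H.f11, map_zero]
theorem s1q : R.f1 (R.f3 (R.f2 v)) = (-2⁻¹ : F) • R.f3 (R.f3 v) := by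
  rw [R.f1f3, R.f1f2, map_sub, H.r2]; module
theorem s1r : R.f1 (R.f3 (R.f3 v)) = 0 := by
  rw [R.f1f3, R.f1f3, H.r4]
theorem s2g : R.f2 (R.f3 v) = R.f3 (R.f2 v) := R.f2f3 v
theorem s2p : R.f2 (R.f3 (R.f1 v)) = (2⁻¹ : F) • R.f3 (R.f3 v) := by
  rw [R.f2f3, H.r2]
theorem s2q : R.f2 (R.f3 (R.f2 v)) = 0 := by
  rw [R.f2f3, H.f22, map_zero]
theorem s2r : R.f2 (R.f3 (R.f3 v)) = 0 := by
  rw [R.f2f3, R.f2f3, H.r5]
theorem a1 : R.A (R.f1 v) = 0 := by rw [R.Af1, H.A, sub_self]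
theorem a2 : R.A (R.f2 v) = R.f2 v := by rw [R.Af2, H.A]
theorem a3 : R.A (R.f2 (R.f1 v)) = 0 := by rw [R.Af2, a1 H, map_zero]
theorem a4 : R.A (R.f3 v) = 0 := by rw [R.Af3, H.A, sub_self]
theorem a5 : R.A (R.f3 (R.f1 v)) = - R.f3 (R.f1 v) := by rw [R.Af3, a1 H, map_zero, zero_sub]
theorem a6 : R.A (R.f3 (R.f2 v)) = 0 := by rw [R.Af3, a2 H, sub_self]
theorem a7 : R.A (R.f3 (R.f3 v)) = - R.f3 (R.f3 v) := by rw [R.Af3, a4 H, map_zero, zero_sub]
theorem b1 : R.B (R.f1 v) = R.f1 v := by rw [R.Bf1, H.B]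
theorem b2 : R.B (R.f2 v) = 0 := by rw [R.Bf2, H.B, sub_self]
theorem b3 : R.B (R.f2 (R.f1 v)) = 0 := by rw [R.Bf2, b1 H, sub_self]
theorem b4 : R.B (R.f3 v) = 0 := by rw [R.Bf3, H.B, sub_self]
theorem b5 : R.B (R.f3 (R.f1 v)) = 0 := by rw [R.Bf3, b1 H, sub_self]
theorem b6 : R.B (R.f3 (R.f2 v)) = - R.f3 (R.f2 v) := by rw [R.Bf3, b2 H, map_zero, zero_sub]
theorem b7 : R.B (R.f3 (R.f3 v)) = - R.f3 (R.f3 v) := by rw [R.Bf3, b4 H, map_zero, zero_sub]

end Adj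

variable {F : Type} [Field F] [CharZero F] {A : Type} [NonUnitalRing A] [Module F A]
  [IsScalarTower F A A] [SMulCommClass F A A]

variable (F A) in
/-- the action on the exterior algebra -/
noncomputable abbrev RE : Sl3 F (ExteriorAlgebra F (G F A)) := (RG F A).ext

theorem sl_mat (X : LieAlgebra.SpecialLinear.sl (Fin 3) F) : X.1 =
    X.1 0 1 • E F 0 1 + X.1 1 2 • E F 1 2 + X.1 0 2 • E F 0 2 + X.1 1 0 • E F 1 0 +
    X.1 2 1 • E F 2 1 + X.1 2 0 • E F 2 0 + X.1 0 0 • E F 0 0 + X.1 1 1 • E F 1 1 +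
    X.1 2 2 • E F 2 2 := by
  ext i j
  fin_cases i <;> fin_cases j <;> simp [E, Matrix.single]

theorem act_eq (X : LieAlgebra.SpecialLinear.sl (Fin 3) F) : (slAct F A X : G F A →ₗ[F] G F A) =
    X.1 0 1 • (RG F A).e1 + X.1 1 2 • (RG F A).e2 + X.1 0 2 • (RG F A).e3 + X.1 1 0 • (RG F A).f1 +
    X.1 2 1 • (RG F A).f2 + X.1 2 0 • (RG F A).f3 + (X.1 0 0 - X.1 1 1) • (RG F A).A +
    (X.1 0 0 + 2 * X.1 1 1) • (RG F A).B := by
  have h := sl_mat X
  have h1 : (slAct F A X : G F A →ₗ[F] G F A) = act (X.1 0 1 • E F 0 1 + X.1 1 2 • E F 1 2 +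
      X.1 0 2 • E F 0 2 + X.1 1 0 • E F 1 0 + X.1 2 1 • E F 2 1 + X.1 2 0 • E F 2 0 +
      X.1 0 0 • E F 0 0 + X.1 1 1 • E F 1 1 + X.1 2 2 • E F 2 2) := by
    rw [← h]; rfl
  have h2 : (act (E F 2 2) : G F A →ₗ[F] G F A) = - act (E F 0 0) - act (E F 1 1) := by
    ext x : 1
    exact act_diag' x
  have h3 := sl_22 F X
  rw [h1]
  simp only [act_add, act_smul, h2, h3]
  show _ = X.1 0 1 • act (E F 0 1) + X.1 1 2 • act (E F 1 2) + X.1 0 2 • act (E F 0 2) +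
    X.1 1 0 • act (E F 1 0) + X.1 2 1 • act (E F 2 1) + X.1 2 0 • act (E F 2 0) +
    (X.1 0 0 - X.1 1 1) • act (E F 0 0) + (X.1 0 0 + 2 * X.1 1 1) •
    (act (E F 0 0) + act (E F 1 1))
  module

theorem Th_slAct (X : LieAlgebra.SpecialLinear.sl (Fin 3) F) (v : ExteriorAlgebra F (G F A)) :
    Th (slAct F A X) v = X.1 0 1 • (RE F A).e1 v + X.1 1 2 • (RE F A).e2 v +
      X.1 0 2 • (RE F A).e3 v + X.1 1 0 • (RE F A).f1 v + X.1 2 1 • (RE F A).f2 v +
      X.1 2 0 • (RE F A).f3 v + (X.1 0 0 - X.1 1 1) • (RE F A).A v +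
      (X.1 0 0 + 2 * X.1 1 1) • (RE F A).B v := by
  rw [act_eq]
  simp only [Th_add, Th_smul]
  rfl

theorem no_zero {k : ℕ} (hno : ¬ TrivialIn F (G F A) (slAct F A) k) : ∀ v ∈ Zk F (G F A) k,
    Th (RG F A).e1 v = 0 → Th (RG F A).e2 v = 0 → Th (RG F A).f1 v = 0 → Th (RG F A).f2 v = 0 →
    v ∈ Bk F (G F A) k := by
  intro v hv he1 he2 hf1 hf2
  by_contra hB
  apply hno
  have he1' : (RE F A).e1 v = 0 := he1
  have he2' : (RE F A).e2 v = 0 := he2
  have hf1' : (RE F A).f1 v = 0 := hf1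
  have hf2' : (RE F A).f2 v = 0 := hf2
  have he3 : (RE F A).e3 v = 0 := by
    have h4 : (RE F A).e3 v = (RE F A).e1 ((RE F A).e2 v) - (RE F A).e2 ((RE F A).e1 v) := by
      rw [(RE F A).e2e1]; abel
    rw [h4, he1', he2', map_zero, map_zero, sub_zero]
  have hf3 : (RE F A).f3 v = 0 := by
    have h4 : (RE F A).f3 v = (RE F A).f2 ((RE F A).f1 v) - (RE F A).f1 ((RE F A).f2 v) := by
      rw [(RE F A).f1f2]; abel
    rw [h4, hf1', hf2', map_zero, map_zero, sub_zero]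
  have r1 := (RE F A).e1f1 v
  have r2 := (RE F A).e2f2 v
  rw [he1', hf1', map_zero, map_zero, zero_add] at r1
  rw [he2', hf2', map_zero, map_zero, zero_add] at r2
  have hA : (RE F A).A v = 0 := by
    linear_combination (norm := module) (-(2 / 3 : F)) • r1 - (1 / 3 : F) • r2
  have hB' : (RE F A).B v = 0 := by
    linear_combination (norm := module) (-(1 / 3 : F)) • r1 - (2 / 3 : F) • r2
  refine ⟨v, hv, hB, fun X => ?_⟩
  rw [Th_slAct, he1', he2', he3, hf1', hf2', hf3, hA, hB']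
  simp

/-- the equivariant map -/
noncomputable def ps (v : ExteriorAlgebra F (G F A)) :
    LieAlgebra.SpecialLinear.sl (Fin 3) F →ₗ[F] ExteriorAlgebra F (G F A) where
  toFun X := X.1 0 2 • v + X.1 1 2 • (RE F A).f1 v - X.1 0 1 • (RE F A).f2 v -
    X.1 1 0 • (RE F A).f3 ((RE F A).f1 v) - X.1 2 1 • (RE F A).f3 ((RE F A).f2 v) -
    (2⁻¹ * X.1 2 0) • (RE F A).f3 ((RE F A).f3 v) - X.1 1 1 • (RE F A).f2 ((RE F A).f1 v) -
    X.1 0 0 • (RE F A).f3 v
  map_add' X Y := by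
    have h1 : ∀ i j, (X + Y).1 i j = X.1 i j + Y.1 i j := fun _ _ => rfl
    simp only [h1]
    module
  map_smul' c X := by
    have h1 : ∀ i j, (c • X).1 i j = c * X.1 i j := fun _ _ => rfl
    simp only [h1, RingHom.id_apply]
    module

theorem ps_apply (v : ExteriorAlgebra F (G F A)) (X : LieAlgebra.SpecialLinear.sl (Fin 3) F) :
    ps v X = X.1 0 2 • v + X.1 1 2 • (RE F A).f1 v - X.1 0 1 • (RE F A).f2 v -
    X.1 1 0 • (RE F A).f3 ((RE F A).f1 v) - X.1 2 1 • (RE F A).f3 ((RE F A).f2 v) -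
    (2⁻¹ * X.1 2 0) • (RE F A).f3 ((RE F A).f3 v) - X.1 1 1 • (RE F A).f2 ((RE F A).f1 v) -
    X.1 0 0 • (RE F A).f3 v := rfl

theorem ps_equi {v : ExteriorAlgebra F (G F A)} (H : (RE F A).IsAdj v)
    (X Y : LieAlgebra.SpecialLinear.sl (Fin 3) F) :
    ps v ⁅X, Y⁆ = Th (slAct F A X) (ps v Y) := by
  have h22 := sl_22 F X
  have h22' := sl_22 F Y
  rw [Th_slAct, ps_apply, ps_apply, LieAlgebra.SpecialLinear.sl_bracket]
  simp only [map_add, map_sub, map_smul, map_zero, H.e1, H.e2, H.e3, H.A, H.B, H.f11, H.f22, H.r1, H.r2,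
    H.r4, H.r5, H.r6, t1a H, t1b H, t1c H, t1g H, t1p H, t1q H, t1r H, t2a H, t2b H, t2c H, t2g H,
    t2p H, t2q H, t2r H, t3a H, t3b H, t3c H, t3g H, t3p H, t3q H, t3r H, s1b H, s1c H, s1g H,
    s1p H, s1q H, s1r H, s2g H, s2p H, s2q H, s2r H, a1 H, a2 H, a3 H, a4 H, a5 H, a6 H, a7 H,
    b1 H, b2 H, b3 H, b4 H, b5 H, b6 H, b7 H, Matrix.sub_apply, Matrix.mul_apply,
    Fin.sum_univ_three, h22, h22']
  module

theorem no_adj {k : ℕ} (hno : ¬ AdjointIn F (G F A) (slAct F A) k) : ∀ v ∈ Zk F (G F A) k,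
    (RE F A).IsAdj v → v ∈ Bk F (G F A) k := by
  intro v hv H
  by_contra hB
  apply hno
  have z1 : ∀ w ∈ Zk F (G F A) k, (RE F A).f1 w ∈ Zk F (G F A) k := fun w hw =>
    Th_Zk (isDer_act (F := F) (A := A) (E F 1 0)) hw
  have z2 : ∀ w ∈ Zk F (G F A) k, (RE F A).f2 w ∈ Zk F (G F A) k := fun w hw =>
    Th_Zk (isDer_act (F := F) (A := A) (E F 2 1)) hw
  have z3 : ∀ w ∈ Zk F (G F A) k, (RE F A).f3 w ∈ Zk F (G F A) k := fun w hw =>
    Th_Zk (isDer_act (F := F) (A := A) (E F 2 0)) hw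
  have y1 : ∀ w ∈ Bk F (G F A) k, (RE F A).e1 w ∈ Bk F (G F A) k := fun w hw =>
    Th_Bk (isDer_act (F := F) (A := A) (E F 0 1)) hw
  have y2 : ∀ w ∈ Bk F (G F A) k, (RE F A).e2 w ∈ Bk F (G F A) k := fun w hw =>
    Th_Bk (isDer_act (F := F) (A := A) (E F 1 2)) hw
  have y3 : ∀ w ∈ Bk F (G F A) k, (RE F A).e3 w ∈ Bk F (G F A) k := fun w hw =>
    Th_Bk (isDer_act (F := F) (A := A) (E F 0 2)) hw
  have key : ∀ c : F, c • v ∈ Bk F (G F A) k → c = 0 := by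
    intro c hc
    by_contra h0
    apply hB
    have := Submodule.smul_mem _ c⁻¹ hc
    rwa [smul_smul, inv_mul_cancel₀ h0, one_smul] at this
  refine ⟨ps v, ?_, ?_, ?_⟩
  · intro X
    rw [ps_apply]
    exact Submodule.sub_mem _ (Submodule.sub_mem _ (Submodule.sub_mem _ (Submodule.sub_mem _
      (Submodule.sub_mem _ (Submodule.sub_mem _ (Submodule.add_mem _
      (Submodule.smul_mem _ _ hv) (Submodule.smul_mem _ _ (z1 _ hv)))
      (Submodule.smul_mem _ _ (z2 _ hv))) (Submodule.smul_mem _ _ (z3 _ (z1 _ hv))))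
      (Submodule.smul_mem _ _ (z3 _ (z2 _ hv)))) (Submodule.smul_mem _ _ (z3 _ (z3 _ hv))))
      (Submodule.smul_mem _ _ (z2 _ (z1 _ hv)))) (Submodule.smul_mem _ _ (z3 _ hv))
  · intro X hX
    rw [ps_apply] at hX
    have T : ∀ c02 c12 c01 c10 c21 c20 c11 c00 : F,
        (c02 • v + c12 • (RE F A).f1 v - c01 • (RE F A).f2 v -
        c10 • (RE F A).f3 ((RE F A).f1 v) - c21 • (RE F A).f3 ((RE F A).f2 v) -
        c20 • (RE F A).f3 ((RE F A).f3 v) - c11 • (RE F A).f2 ((RE F A).f1 v) -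
        c00 • (RE F A).f3 v) ∈ Bk F (G F A) k →
        c20 = 0 ∧ c10 = 0 ∧ c21 = 0 ∧ c11 = 0 ∧ c00 = 0 ∧ c12 = 0 ∧ c01 = 0 ∧ c02 = 0 := by
      intro c02 c12 c01 c10 c21 c20 c11 c00 h
      have h33 := y3 _ (y3 _ h)
      simp only [map_add, map_sub, map_smul, map_zero, H.e1, H.e2, H.e3, t3a H, t3b H, t3c H, t3g H, t3p H,
        t3q H, t3r H] at h33
      have e20 : c20 = 0 := by
        have := key (-4 * c20) (by convert h33 using 1; module)
        simpa using this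
      subst e20
      have h13 := y1 _ (y3 _ h)
      have h23 := y2 _ (y3 _ h)
      simp only [map_add, map_sub, map_smul, map_zero, H.e1, H.e2, H.e3, t3a H, t3b H, t3c H, t3g H, t3p H,
        t3q H, t3r H, t1a H, t1b H, t1c H, t1g H, t1p H, t1q H, t1r H, t2a H, t2b H, t2c H, t2g H,
        t2p H, t2q H, t2r H] at h13 h23
      have e10 : c10 = 0 := by
        have := key (-c10) (by convert h13 using 1; module)
        simpa using this
      have e21 : c21 = 0 := by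
        have := key (-c21) (by convert h23 using 1; module)
        simpa using this
      subst e10 e21
      have h3 := y3 _ h
      have h12 := y1 _ (y2 _ h)
      simp only [map_add, map_sub, map_smul, map_zero, H.e1, H.e2, H.e3, t3a H, t3b H, t3c H, t3g H, t3p H,
        t3q H, t3r H, t1a H, t1b H, t1c H, t1g H, t1p H, t1q H, t1r H, t2a H, t2b H, t2c H, t2g H,
        t2p H, t2q H, t2r H] at h3 h12
      have q1 : -(c11 + 2 * c00) = 0 := key _ (by convert h3 using 1; module)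
      have q2 : -(2 * c11 + c00) = 0 := key _ (by convert h12 using 1; module)
      have e11 : c11 = 0 := by linear_combination (1 / 3 : F) * q1 - (2 / 3 : F) * q2
      have e00 : c00 = 0 := by linear_combination (-(2 / 3) : F) * q1 + (1 / 3 : F) * q2
      subst e11 e00
      have h1 := y1 _ h
      have h2 := y2 _ h
      simp only [map_add, map_sub, map_smul, map_zero, H.e1, H.e2, H.e3, t3a H, t3b H, t3c H, t3g H, t3p H,
        t3q H, t3r H, t1a H, t1b H, t1c H, t1g H, t1p H, t1q H, t1r H, t2a H, t2b H, t2c H, t2g H,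
        t2p H, t2q H, t2r H] at h1 h2
      have e12 : c12 = 0 := key _ (by convert h1 using 1; module)
      have e01 : c01 = 0 := by
        have := key (-c01) (by convert h2 using 1; module)
        simpa using this
      subst e12 e01
      have e02 : c02 = 0 := key _ (by convert h using 1; module)
      exact ⟨rfl, rfl, rfl, rfl, rfl, rfl, rfl, e02⟩
    obtain ⟨g20, g10, g21, g11, g00, g12, g01, g02⟩ := T _ _ _ _ _ _ _ _ hX
    have g20' : X.1 2 0 = 0 := by simpa using g20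
    have g22 : X.1 2 2 = 0 := by rw [sl_22, g00, g11]; ring
    apply Subtype.ext
    ext i j
    fin_cases i <;> fin_cases j <;> assumption
  · intro X Y
    rw [ps_equi H, sub_self]
    exact Submodule.zero_mem _

end Pool.Agent.U691.HA
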